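import Pool.Agent.Helper716_Lang.RCMin
import Pool.Agent.H685_stab.RealClosure

/-!
Rings of real analytic functions, sums of squares of meromorphic functions, Artin's criterion.
-/

set_option autoImplicit false

namespace Run7.h470

open Polynomial Set
open Pool.Agent.Helper716_Lang

/-! ### Real closed fields from the intermediate value property -/

section RC

variable {R : Type*} [Field R] [LinearOrder R] [IsStrictOrderedRing R]

theorem isRealClosed_of_ivt (h : Pool.Agent.H685_stab.PolyIVT R) : IsRealClosed R := by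
  refine IsRealClosed.of_linearOrderedField ?_ ?_
  · intro x hx
    rcases hx.eq_or_lt with rfl | hx
    · exact ⟨0, by simp⟩
    · obtain ⟨c, hc0, hc1, hc⟩ := h (X ^ 2 - C x) 0 (x + 1) (by linarith) (by
        simp only [eval_sub, eval_pow, eval_X, eval_C]
        nlinarith [mul_pos hx hx])
      refine ⟨c, ?_⟩
      simp only [eval_sub, eval_pow, eval_X, eval_C] at hc
      linear_combination -hc
  · intro f hf
    have hf0 : f ≠ 0 := by
      rintro rfl
      simp at hf
    obtain ⟨s₀, δ, hδ, hs⟩ := RC.aux213_top f.natDegree f hf0 rfl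
    have hg0 : f.comp (-X) ≠ 0 := by
      intro h0
      apply hf0
      have := congrArg (fun p => p.comp (-X)) h0
      simpa [comp_assoc] using this
    obtain ⟨s₁, δ', hδ', hs'⟩ := RC.aux213_top (f.comp (-X)).natDegree (f.comp (-X)) hg0 rfl
    have hlead : (f.comp (-X)).leadingCoeff = - f.leadingCoeff := by
      rw [leadingCoeff_comp (by simp)]
      simp [hf.neg_one_pow]
    set M := max (max s₀ s₁) 1
    have h1 := hs M ((le_max_left _ _).trans (le_max_left _ _))
    have h2 := hs' M ((le_max_right _ _).trans (le_max_left _ _))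
    have hM : 1 ≤ M := le_max_right _ _
    rw [hlead] at h2
    simp only [eval_comp, eval_neg, eval_X] at h2
    obtain ⟨c, _, _, hc⟩ := h f (-M) M (by linarith) (by
      have h3 : 0 < f.leadingCoeff ^ 2 := by
        have : f.leadingCoeff ≠ 0 := leadingCoeff_ne_zero.mpr hf0
        positivity
      by_contra hcon
      push Not at hcon
      have h4 : 0 < (f.eval M * f.leadingCoeff) * (f.eval (-M) * -f.leadingCoeff) :=
        mul_pos (hδ.trans_le h1) (hδ'.trans_le h2)
      nlinarith [mul_nonneg hcon h3.le])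
    exact ⟨c, hc⟩

end RC

/-! ### Sums of squares in domains -/

/-- `f` becomes a sum of squares after multiplication by the square of a nonzero element. -/
def SOS (A : Type*) [CommRing A] (f : A) : Prop :=
  ∃ (s : ℕ) (h : A) (g : Fin s → A), h ≠ 0 ∧ h ^ 2 * f = ∑ i, g i ^ 2

theorem isSumSq_iff_fin {A : Type*} [CommRing A] {x : A} :
    IsSumSq x ↔ ∃ (s : ℕ) (g : Fin s → A), x = ∑ i, g i ^ 2 := by
  constructor
  · intro h
    induction h with
    | zero => exact ⟨0, Fin.elim0, by simp⟩
    | sq_add a hs ih =>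
      obtain ⟨s, g, rfl⟩ := ih
      exact ⟨s + 1, Fin.cons a g, by simp [Fin.sum_univ_succ, sq]⟩
  · rintro ⟨s, g, rfl⟩
    exact IsSumSq.sum (fun i _ => by rw [sq]; exact IsSumSq.mul_self _)

theorem neg_one_notMem {K : Type*} [Field K] {F : K} (h2 : (2 : K) ≠ 0) (hsum : ¬ IsSumSq F) :
    (-1 : K) ∉ AddSubmonoid.closure {z | ∃ t ∈ {t : K | ∃ k : ℕ, t = (-F) ^ k}, ∃ l : K,
      z = t * l ^ 2} := by
  intro hmem
  -- every element of the cone is `S₁ - F S₂`
  have key : ∀ z ∈ AddSubmonoid.closure {z | ∃ t ∈ {t : K | ∃ k : ℕ, t = (-F) ^ k}, ∃ l : K,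
      z = t * l ^ 2}, ∃ a b : K, IsSumSq a ∧ IsSumSq b ∧ z = a - F * b := by
    intro z hz
    induction hz using AddSubmonoid.closure_induction with
    | mem x hx =>
      obtain ⟨t, ⟨k, rfl⟩, l, rfl⟩ := hx
      rcases Nat.even_or_odd' k with ⟨j, rfl | rfl⟩
      · refine ⟨(F ^ j * l) * (F ^ j * l), 0, IsSumSq.mul_self _, IsSumSq.zero, ?_⟩
        rw [pow_mul, neg_sq, mul_zero, sub_zero]; ring
      · refine ⟨0, (F ^ j * l) * (F ^ j * l), IsSumSq.zero, IsSumSq.mul_self _, ?_⟩
        rw [pow_succ, pow_mul, neg_sq]; ring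
    | zero => exact ⟨0, 0, IsSumSq.zero, IsSumSq.zero, by simp⟩
    | add y z _ _ hy hz =>
      obtain ⟨a, b, ha, hb, rfl⟩ := hy
      obtain ⟨a', b', ha', hb', rfl⟩ := hz
      exact ⟨a + a', b + b', ha.add ha', hb.add hb', by ring⟩
  obtain ⟨a, b, ha, hb, hab⟩ := key _ hmem
  have h1 : F * b = 1 + a := by linear_combination hab
  by_cases hb0 : b = 0
  · -- then `-1 = a` is a sum of squares, so everything is
    have h2 : (-1 : K) = a := by rw [hb0] at h1; linear_combination h1
    apply hsum
    have h3 : F = ((F + 1) / 2) * ((F + 1) / 2) + a * (((F - 1) / 2) * ((F - 1) / 2)) := by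
      rw [← h2]; field_simp; ring
    rw [h3]
    exact (IsSumSq.mul_self _).add (ha.mul (IsSumSq.mul_self _))
  · apply hsum
    have h3 : F = (b⁻¹ * b⁻¹) * (b * (1 + a)) := by
      rw [← h1]
      field_simp
    rw [h3]
    refine (IsSumSq.mul_self _).mul (hb.mul (IsSumSq.add ?_ ha))
    simp

/-- A nonzero element of a domain that is not a sum of squares in the fraction field is negative for
some injective homomorphism to a real closed field. -/
theorem artin {A : Type} [CommRing A] [IsDomain A] (h2A : (2 : A) ≠ 0) {f : A} (hf : ¬ SOS A f) :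
    ∃ (M : RC.Model) (φ : A →+* M.F), Function.Injective φ ∧ φ f < 0 := by
  classical
  let K := FractionRing A
  have hinj : Function.Injective (algebraMap A K) := IsFractionRing.injective A K
  obtain ⟨F, hF⟩ : ∃ F : K, F = algebraMap A K f := ⟨_, rfl⟩
  have hf0 : f ≠ 0 := by
    rintro rfl
    exact hf ⟨0, 1, Fin.elim0, one_ne_zero, by simp⟩
  have hF0 : F ≠ 0 := by
    rw [hF]
    exact (map_ne_zero_iff _ hinj).mpr hf0
  have h2K : (2 : K) ≠ 0 := by
    intro h20
    have : (algebraMap A K) 2 = (algebraMap A K) 0 := by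
      rw [map_ofNat, map_zero]; exact h20
    exact h2A (hinj this)
  -- `F` is not a sum of squares in `K`
  have hsum : ¬ IsSumSq F := by
    intro hs
    rw [isSumSq_iff_fin] at hs
    obtain ⟨s, g, hg⟩ := hs
    obtain ⟨b, hb⟩ := IsLocalization.exist_integer_multiples_of_finset (nonZeroDivisors A)
      (Finset.univ.image g)
    choose c hc using fun i : Fin s => hb (g i) (Finset.mem_image_of_mem _ (Finset.mem_univ i))
    refine hf ⟨s, b, c, nonZeroDivisors.coe_ne_zero b, hinj ?_⟩
    rw [map_mul, map_pow, map_sum]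
    simp only [map_pow, hc]
    rw [← hF, hg, Finset.mul_sum]
    refine Finset.sum_congr rfl fun i _ => ?_
    rw [Algebra.smul_def, mul_pow]
  obtain ⟨R, _, _, _, ψ, hψ, hivt⟩ := Pool.Agent.H685_stab.exists_rc {t : K | ∃ k : ℕ, t = (-F) ^ k}
    (by rintro _ ⟨k, rfl⟩ _ ⟨l, rfl⟩; exact ⟨k + l, by ring⟩) ⟨0, by simp⟩
    (neg_one_notMem h2K hsum)
  have hrc : IsRealClosed R := isRealClosed_of_ivt hivt
  refine ⟨RC.Model.mk R, ψ.comp (algebraMap A K), ψ.injective.comp hinj, ?_⟩
  have h1 : 0 ≤ ψ (-F) := hψ _ ⟨1, by simp⟩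
  have h2 : ψ F ≠ 0 := (map_ne_zero ψ).mpr hF0
  rw [map_neg] at h1
  have h3 : ψ F ≤ 0 := neg_nonneg.mp h1
  rw [hF] at h3 h2
  exact lt_of_le_of_ne h3 h2

/-! ### Rings of analytic functions -/

variable (E : Type) [NormedAddCommGroup E] [NormedSpace ℝ E]

/-- The subalgebra of real analytic functions on `E`. -/
def anSub : Subalgebra ℝ (E → ℝ) where
  carrier := {f | AnalyticOnNhd ℝ f univ}
  mul_mem' := fun ha hb => ha.mul hb
  add_mem' := fun ha hb => ha.add hb
  algebraMap_mem' := fun _ => analyticOnNhd_const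

/-- The ring of real analytic functions on `E`. -/
abbrev An : Type := ↥(anSub E)

variable {E}

theorem An.an (f : An E) : AnalyticOnNhd ℝ (f : E → ℝ) univ := f.2

theorem An.cont (f : An E) : Continuous (f : E → ℝ) := by
  have := f.an.continuousOn
  rwa [continuousOn_univ] at this

@[simp] theorem An.coe_mul (f g : An E) (x : E) : ((f * g : An E) : E → ℝ) x = (f : E → ℝ) x * (g : E → ℝ) x := rfl
@[simp] theorem An.coe_add (f g : An E) (x : E) : ((f + g : An E) : E → ℝ) x = (f : E → ℝ) x + (g : E → ℝ) x := rfl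
@[simp] theorem An.coe_sub (f g : An E) (x : E) : ((f - g : An E) : E → ℝ) x = (f : E → ℝ) x - (g : E → ℝ) x := rfl
@[simp] theorem An.coe_neg (f : An E) (x : E) : ((-f : An E) : E → ℝ) x = -(f : E → ℝ) x := rfl
@[simp] theorem An.coe_one (x : E) : ((1 : An E) : E → ℝ) x = 1 := rfl
@[simp] theorem An.coe_zero (x : E) : ((0 : An E) : E → ℝ) x = 0 := rfl
@[simp] theorem An.coe_pow (f : An E) (n : ℕ) (x : E) : ((f ^ n : An E) : E → ℝ) x = (f : E → ℝ) x ^ n := rfl

theorem An.ext {f g : An E} (h : ∀ x, (f : E → ℝ) x = (g : E → ℝ) x) : f = g :=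
  Subtype.ext (funext h)

theorem An.exists_ne {f : An E} (h : f ≠ 0) : ∃ x, (f : E → ℝ) x ≠ 0 := by
  by_contra hcon
  push Not at hcon
  exact h (An.ext hcon)

theorem An.eq_of_eventuallyEq {f g : An E} {x : E} (h : (f : E → ℝ) =ᶠ[nhds x] g) : f = g :=
  Subtype.ext (f.an.eq_of_eventuallyEq g.an h)

instance : NoZeroDivisors (An E) where
  eq_zero_or_eq_zero_of_mul_eq_zero := by
    intro f g hfg
    by_cases hf : f = 0
    · exact Or.inl hf
    · right
      obtain ⟨x, hx⟩ := An.exists_ne hf
      refine An.eq_of_eventuallyEq (x := x) ?_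
      filter_upwards [f.cont.continuousAt.eventually_ne hx] with y hy
      have := congrArg (fun h : An E => (h : E → ℝ) y) hfg
      simp only [An.coe_mul, An.coe_zero, mul_eq_zero] at this
      rcases this with h | h
      · exact absurd h hy
      · simpa using h

instance : Nontrivial (An E) := ⟨0, 1, fun h => by
  have := congrArg (fun h : An E => (h : E → ℝ) 0) h
  simp at this⟩

instance : IsDomain (An E) := NoZeroDivisors.to_isDomain _

/-- a strictly positive analytic function is a square of a strictly positive one -/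
theorem An.exists_sqrt {f : An E} (h : ∀ x, 0 < (f : E → ℝ) x) :
    ∃ g : An E, (∀ x, 0 < (g : E → ℝ) x) ∧ (∀ x, (g : E → ℝ) x = √((f : E → ℝ) x)) ∧ g ^ 2 = f := by
  refine ⟨⟨fun x => √((f : E → ℝ) x), fun x _ =>
    ((f.an x trivial).contDiffAt.sqrt (h x).ne').analyticAt⟩,
    fun x => ?_,
    fun x => rfl, ?_⟩
  · exact Real.sqrt_pos.mpr (h x)
  · refine An.ext fun x => ?_
    exact Real.sq_sqrt (h x).le

/-- strictly positive functions are positive for every injective homomorphism -/
theorem pos_of_pos {M : RC.Model} {φ : An E →+* M.F} {f : An E} (h : ∀ x, 0 < (f : E → ℝ) x) :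
    0 < φ f := by
  obtain ⟨g, hg, _, rfl⟩ := An.exists_sqrt h
  -- `g` is a unit
  have hu : IsUnit g := by
    refine ⟨⟨g, ⟨fun x => ((g : E → ℝ) x)⁻¹, fun x _ => (g.an x trivial).inv (hg x).ne'⟩, ?_, ?_⟩, rfl⟩
    · exact An.ext fun x => mul_inv_cancel₀ (hg x).ne'
    · exact An.ext fun x => inv_mul_cancel₀ (hg x).ne'
  have h2 : φ g ≠ 0 := (hu.map φ).ne_zero
  rw [map_pow]
  positivity

end Run7.h470
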