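import Pool.Agent.Run7.h470.Poly

/-!
The ring of real analytic functions on a connected real analytic manifold.
-/

set_option autoImplicit false

namespace Run7.h470

open Set Filter Topology
open scoped ContDiff Manifold
open Pool.Agent.Helper716_Lang

section

variable (E : Type) [NormedAddCommGroup E] [NormedSpace ℝ E]
  (M : Type) [TopologicalSpace M] [ChartedSpace E M]

/-- The subalgebra of real analytic functions on `M`. -/
def mSub : Subalgebra ℝ (M → ℝ) where
  carrier := {f | ContMDiff 𝓘(ℝ, E) 𝓘(ℝ, ℝ) ω f}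
  mul_mem' := fun ha hb => ContMDiff.mul ha hb
  add_mem' := fun ha hb => ContMDiff.add ha hb
  algebraMap_mem' := fun _ => contMDiff_const

/-- The ring of real analytic functions on `M`. -/
abbrev MAn : Type := ↥(mSub E M)

variable {E M}

theorem MAn.an (f : MAn E M) : ContMDiff 𝓘(ℝ, E) 𝓘(ℝ, ℝ) ω (f : M → ℝ) := f.2

theorem MAn.ext {f g : MAn E M} (h : ∀ x, (f : M → ℝ) x = (g : M → ℝ) x) : f = g :=
  Subtype.ext (funext h)

theorem MAn.exists_ne {f : MAn E M} (h : f ≠ 0) : ∃ x, (f : M → ℝ) x ≠ 0 := by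
  by_contra hcon
  push Not at hcon
  exact h (MAn.ext hcon)

variable [IsManifold 𝓘(ℝ, E) ω M]

/-- the identity theorem -/
theorem MAn.eq_zero [ConnectedSpace M] {g : MAn E M} {x₀ : M} (h : (g : M → ℝ) =ᶠ[𝓝 x₀] 0) :
    g = 0 := by
  have hclopen : IsClopen {x : M | (g : M → ℝ) =ᶠ[𝓝 x] 0} := by
    constructor
    · refine isClosed_of_closure_subset fun x hx => ?_
      set e := chartAt E x with he
      have hxs : x ∈ e.source := mem_chart_source E x
      have han : AnalyticOnNhd ℝ ((g : M → ℝ) ∘ e.symm) e.target := by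
        intro y hy
        have h1 : ContMDiffOn 𝓘(ℝ, E) 𝓘(ℝ, ℝ) ω ((g : M → ℝ) ∘ e.symm) e.target :=
          (g.an.contMDiffOn (s := univ)).comp (contMDiffOn_chart_symm (n := ω)) (fun _ _ => trivial)
        exact (h1.contDiffOn.contDiffAt (e.open_target.mem_nhds hy)).analyticAt
      obtain ⟨r, hr, hball⟩ := Metric.isOpen_iff.mp e.open_target (e x) (e.map_source hxs)
      have hU : e.source ∩ e ⁻¹' (Metric.ball (e x) r) ∈ 𝓝 x :=
        (e.isOpen_inter_preimage Metric.isOpen_ball).mem_nhds ⟨hxs, by simp [hr]⟩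
      obtain ⟨y, ⟨hys, hyb⟩, hy⟩ := mem_closure_iff_nhds.mp hx _ hU
      have h2 : ((g : M → ℝ) ∘ e.symm) =ᶠ[𝓝 (e y)] 0 := by
        have h3 : Tendsto e.symm (𝓝 (e y)) (𝓝 y) := by
          have := (e.continuousAt_symm (e.map_source hys)).tendsto
          rwa [e.left_inv hys] at this
        exact h3.eventually hy
      have h4 : EqOn ((g : M → ℝ) ∘ e.symm) 0 (Metric.ball (e x) r) :=
        (han.mono hball).eqOn_zero_of_preconnected_of_eventuallyEq_zero
          (convex_ball _ _).isPreconnected hyb h2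
      refine mem_of_superset hU fun w hw => ?_
      have h5 := h4 hw.2
      simp only [Function.comp_apply, e.left_inv hw.1] at h5
      exact h5
    · rw [isOpen_iff_mem_nhds]
      intro x hx
      exact hx.eventually_nhds
  have h1 := hclopen.eq_univ ⟨x₀, h⟩
  refine MAn.ext fun x => ?_
  have h2 : x ∈ {x : M | (g : M → ℝ) =ᶠ[𝓝 x] 0} := by rw [h1]; trivial
  exact h2.self_of_nhds

instance [ConnectedSpace M] : NoZeroDivisors (MAn E M) where
  eq_zero_or_eq_zero_of_mul_eq_zero := by
    intro f g hfg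
    by_cases hf : f = 0
    · exact Or.inl hf
    · right
      obtain ⟨x, hx⟩ := MAn.exists_ne hf
      refine MAn.eq_zero (x₀ := x) ?_
      filter_upwards [f.an.continuous.continuousAt.eventually_ne hx] with y hy
      have h1 := congrArg (fun h : MAn E M => (h : M → ℝ) y) hfg
      have h2 : (f : M → ℝ) y * (g : M → ℝ) y = 0 := h1
      rcases mul_eq_zero.mp h2 with h | h
      · exact absurd h hy
      · exact h

instance [ConnectedSpace M] : Nontrivial (MAn E M) := ⟨0, 1, fun h => by
  have h1 := congrArg (fun h : MAn E M => (h : M → ℝ) (Classical.arbitrary M)) h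
  have h2 : (0 : ℝ) = 1 := h1
  exact zero_ne_one h2⟩

instance [ConnectedSpace M] : IsDomain (MAn E M) := NoZeroDivisors.to_isDomain _

/-- composition with an analytic function of one variable -/
noncomputable def MAn.pull (u : MAn E M) : An ℝ →+* MAn E M where
  toFun p := ⟨fun x => (p : ℝ → ℝ) ((u : M → ℝ) x),
    (p.an.contDiff (n := ω)).comp_contMDiff u.an⟩
  map_one' := MAn.ext fun _ => rfl
  map_mul' _ _ := MAn.ext fun _ => rfl
  map_zero' := MAn.ext fun _ => rfl
  map_add' _ _ := MAn.ext fun _ => rfl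

theorem MAn.pull_apply (u : MAn E M) (p : An ℝ) (x : M) :
    ((MAn.pull u p : MAn E M) : M → ℝ) x = (p : ℝ → ℝ) ((u : M → ℝ) x) := rfl

theorem MAn.pull_injective [ConnectedSpace M] (u : MAn E M) {x y : M}
    (h : (u : M → ℝ) x < (u : M → ℝ) y) : Function.Injective (MAn.pull u) := by
  rw [injective_iff_map_eq_zero]
  intro p hp
  have h1 : ∀ t ∈ Ioo ((u : M → ℝ) x) ((u : M → ℝ) y), (p : ℝ → ℝ) t = 0 := by
    intro t ht
    obtain ⟨w, hw⟩ := mem_range_of_exists_le_of_exists_ge u.an.continuous ⟨x, ht.1.le⟩ ⟨y, ht.2.le⟩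
    have h2 := congrArg (fun h : MAn E M => (h : M → ℝ) w) hp
    have h3 : (p : ℝ → ℝ) ((u : M → ℝ) w) = 0 := h2
    rwa [hw] at h3
  obtain ⟨t, ht⟩ := nonempty_Ioo.mpr h
  refine An.eq_of_eventuallyEq (x := t) ?_
  filter_upwards [isOpen_Ioo.mem_nhds ht] with s hs
  exact h1 s hs

end

end Run7.h470
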