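import Pool.Agent.Run7.h470.Graph
import Pool.Agent.Run7.h470.Mfd

/-!
Non-negative functions whose zeros lie on finitely many analytic curves.
-/

set_option autoImplicit false

namespace Run7.h470

open Set Filter Topology
open scoped ContDiff Manifold
open Pool.Agent.Helper716_Lang

/-- the comparison of a function on `ℝ^n × ℝ` with its restriction to the graph of `u` -/
def Lo {n : ℕ} (u : An (Fin n → ℝ)) (g : EE n → ℝ) : Prop :=
  ∀ p : EE n, ∃ C : ℝ, 0 < C ∧ ∀ᶠ q in 𝓝 p,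
    g q ≤ C * (g (q.1, (u : (Fin n → ℝ) → ℝ) q.1) + (q.2 - (u : (Fin n → ℝ) → ℝ) q.1) ^ 2)

variable {n : ℕ} {u : An (Fin n → ℝ)}

theorem Lo.mul {g g' : EE n → ℝ} (h : Lo u g) (h' : Lo u g') (hc : Continuous g)
    (hc' : Continuous g') (h0 : ∀ q, 0 ≤ g q) (h0' : ∀ q, 0 ≤ g' q) :
    Lo u (fun q => g q * g' q) := by
  intro p
  obtain ⟨C, hC, hCp⟩ := h p
  obtain ⟨C', hC', hCp'⟩ := h' p
  -- local bounds
  have hu : Continuous fun q : EE n => (u : (Fin n → ℝ) → ℝ) q.1 := u.cont.comp continuous_fst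
  have h1 : Continuous fun q : EE n => g (q.1, (u : (Fin n → ℝ) → ℝ) q.1) :=
    hc.comp (continuous_fst.prodMk hu)
  have h1' : Continuous fun q : EE n => g' (q.1, (u : (Fin n → ℝ) → ℝ) q.1) :=
    hc'.comp (continuous_fst.prodMk hu)
  have h2 : Continuous fun q : EE n => g (q.1, (u : (Fin n → ℝ) → ℝ) q.1) +
      g' (q.1, (u : (Fin n → ℝ) → ℝ) q.1) + (q.2 - (u : (Fin n → ℝ) → ℝ) q.1) ^ 2 :=
    (h1.add h1').add ((continuous_snd.sub hu).pow 2)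
  set b := g (p.1, (u : (Fin n → ℝ) → ℝ) p.1) +
      g' (p.1, (u : (Fin n → ℝ) → ℝ) p.1) + (p.2 - (u : (Fin n → ℝ) → ℝ) p.1) ^ 2 + 1 with hb
  have h3 : ∀ᶠ q : EE n in 𝓝 p, g (q.1, (u : (Fin n → ℝ) → ℝ) q.1) +
      g' (q.1, (u : (Fin n → ℝ) → ℝ) q.1) + (q.2 - (u : (Fin n → ℝ) → ℝ) q.1) ^ 2 < b :=
    h2.continuousAt.eventually_lt_const (by rw [hb]; linarith)
  have hb1 : 1 ≤ b := by
    have := h0 (p.1, (u : (Fin n → ℝ) → ℝ) p.1)
    have := h0' (p.1, (u : (Fin n → ℝ) → ℝ) p.1)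
    have := sq_nonneg (p.2 - (u : (Fin n → ℝ) → ℝ) p.1)
    linarith
  refine ⟨C * C' * b, by positivity, ?_⟩
  filter_upwards [hCp, hCp', h3] with q hq hq' hq3
  have ha := h0 (q.1, (u : (Fin n → ℝ) → ℝ) q.1)
  have ha' := h0' (q.1, (u : (Fin n → ℝ) → ℝ) q.1)
  have hs := sq_nonneg (q.2 - (u : (Fin n → ℝ) → ℝ) q.1)
  set a := g (q.1, (u : (Fin n → ℝ) → ℝ) q.1)
  set a' := g' (q.1, (u : (Fin n → ℝ) → ℝ) q.1)
  set s := (q.2 - (u : (Fin n → ℝ) → ℝ) q.1) ^ 2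
  have h4 : g q * g' q ≤ (C * (a + s)) * (C' * (a' + s)) :=
    mul_le_mul hq hq' (h0' q) (by positivity)
  have h5 : (a + s) * (a' + s) ≤ b * (a * a' + s) := by
    have h6 : 0 ≤ a * a' := mul_nonneg ha ha'
    nlinarith [mul_nonneg hs (by linarith : 0 ≤ b - (a + a' + s)), mul_nonneg h6 (by linarith : 0 ≤ b - 1)]
  calc g q * g' q ≤ (C * (a + s)) * (C' * (a' + s)) := h4
    _ = C * C' * ((a + s) * (a' + s)) := by ring
    _ ≤ C * C' * (b * (a * a' + s)) := mul_le_mul_of_nonneg_left h5 (by positivity)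
    _ = C * C' * b * (a * a' + s) := by ring

theorem Lo.one : Lo u (fun _ : EE n => 1) := by
  intro p
  refine ⟨1, one_pos, Eventually.of_forall fun q => ?_⟩
  nlinarith [sq_nonneg (q.2 - (u : (Fin n → ℝ) → ℝ) q.1)]

theorem Lo.prod {ι : Type} (s : Finset ι) (g : ι → EE n → ℝ) (h : ∀ i ∈ s, Lo u (g i))
    (hc : ∀ i ∈ s, Continuous (g i)) (h0 : ∀ i ∈ s, ∀ q, 0 ≤ g i q) :
    Lo u (fun q => ∏ i ∈ s, g i q) := by
  classical
  induction s using Finset.induction_on with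
  | empty => simpa using Lo.one
  | insert i s hi ih =>
    simp only [Finset.prod_insert hi]
    refine Lo.mul (h i (Finset.mem_insert_self _ _)) (ih (fun j hj => h j (Finset.mem_insert_of_mem hj))
      (fun j hj => hc j (Finset.mem_insert_of_mem hj)) (fun j hj => h0 j (Finset.mem_insert_of_mem hj)))
      (hc i (Finset.mem_insert_self _ _)) ?_ (h0 i (Finset.mem_insert_self _ _)) ?_
    · exact continuous_finsetProd _ fun j hj => hc j (Finset.mem_insert_of_mem hj)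
    · exact fun q => Finset.prod_nonneg fun j hj => h0 j (Finset.mem_insert_of_mem hj) q

/-- the squared distance to a moving point -/
theorem Lo.dist (γ : Fin n → An ℝ) :
    Lo u (fun q : EE n => ∑ i, (q.1 i - (γ i : ℝ → ℝ) q.2) ^ 2) := by
  -- divided differences
  have h1 : ∀ i, ∃ H : ℝ × ℝ → ℝ, Continuous H ∧ ∀ s t : ℝ,
      (γ i : ℝ → ℝ) t - (γ i : ℝ → ℝ) s = (t - s) * H (s, t - s) := by
    intro i
    obtain ⟨H, hH, hGH⟩ := hadamard (F := ℝ) (G := fun v : ℝ × ℝ =>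
      (γ i : ℝ → ℝ) (v.1 + v.2) - (γ i : ℝ → ℝ) v.1) (by
        intro v _
        exact (AnalyticAt.comp ((γ i).an _ trivial) (analyticAt_fst.add analyticAt_snd)).sub
          (AnalyticAt.comp ((γ i).an _ trivial) analyticAt_fst)) (fun y => by simp)
    refine ⟨H, ?_, fun s t => ?_⟩
    · have := hH.continuousOn
      rwa [continuousOn_univ] at this
    · have := hGH (s, t - s)
      simp only [add_sub_cancel] at this
      exact this
  choose H hH hγ using h1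
  intro p
  have hu : Continuous fun q : EE n => (u : (Fin n → ℝ) → ℝ) q.1 := u.cont.comp continuous_fst
  have h2 : Continuous fun q : EE n => ∑ i, (H i ((u : (Fin n → ℝ) → ℝ) q.1,
      q.2 - (u : (Fin n → ℝ) → ℝ) q.1)) ^ 2 := by
    refine continuous_finsetSum _ fun i _ => ?_
    exact ((hH i).comp (hu.prodMk (continuous_snd.sub hu))).pow 2
  set b := ∑ i, (H i ((u : (Fin n → ℝ) → ℝ) p.1, p.2 - (u : (Fin n → ℝ) → ℝ) p.1)) ^ 2 + 1 with hb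
  have hb1 : 1 ≤ b := by
    have : 0 ≤ ∑ i, (H i ((u : (Fin n → ℝ) → ℝ) p.1, p.2 - (u : (Fin n → ℝ) → ℝ) p.1)) ^ 2 :=
      Finset.sum_nonneg fun i _ => sq_nonneg _
    linarith
  have h3 : ∀ᶠ q : EE n in 𝓝 p, ∑ i, (H i ((u : (Fin n → ℝ) → ℝ) q.1,
      q.2 - (u : (Fin n → ℝ) → ℝ) q.1)) ^ 2 < b :=
    h2.continuousAt.eventually_lt_const (by rw [hb]; linarith)
  refine ⟨2 * b, by positivity, ?_⟩
  filter_upwards [h3] with q hq
  set t := q.2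
  set s := (u : (Fin n → ℝ) → ℝ) q.1
  have h4 : ∀ i, (q.1 i - (γ i : ℝ → ℝ) t) ^ 2 ≤ 2 * (q.1 i - (γ i : ℝ → ℝ) s) ^ 2 +
      2 * ((t - s) ^ 2 * (H i (s, t - s)) ^ 2) := by
    intro i
    have h5 := hγ i s t
    have h6 : q.1 i - (γ i : ℝ → ℝ) t = (q.1 i - (γ i : ℝ → ℝ) s) - (t - s) * H i (s, t - s) := by
      rw [← h5]; ring
    rw [h6]
    nlinarith [sq_nonneg ((q.1 i - (γ i : ℝ → ℝ) s) + (t - s) * H i (s, t - s))]
  have h7 : ∑ i, (q.1 i - (γ i : ℝ → ℝ) t) ^ 2 ≤ 2 * ∑ i, (q.1 i - (γ i : ℝ → ℝ) s) ^ 2 +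
      2 * ((t - s) ^ 2 * ∑ i, (H i (s, t - s)) ^ 2) := by
    rw [Finset.mul_sum, Finset.mul_sum, Finset.mul_sum, ← Finset.sum_add_distrib]
    exact Finset.sum_le_sum fun i _ => h4 i
  have h8 : (t - s) ^ 2 * ∑ i, (H i (s, t - s)) ^ 2 ≤ (t - s) ^ 2 * b :=
    mul_le_mul_of_nonneg_left hq.le (sq_nonneg _)
  have h9 : 0 ≤ ∑ i, (q.1 i - (γ i : ℝ → ℝ) s) ^ 2 := Finset.sum_nonneg fun i _ => sq_nonneg _
  show ∑ i, (q.1 i - (γ i : ℝ → ℝ) t) ^ 2 ≤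
    2 * b * (∑ i, (q.1 i - (γ i : ℝ → ℝ) s) ^ 2 + (t - s) ^ 2)
  nlinarith [mul_nonneg h9 (by linarith : 0 ≤ b - 1)]

theorem Lo.DD {k : ℕ} (γ : Fin k → Fin n → An ℝ) (N : ℕ) :
    Lo u (fun q : EE n => ((h470.DD γ : An (EE n)) : EE n → ℝ) q ^ N) := by
  have h1 : (fun q : EE n => ((h470.DD γ : An (EE n)) : EE n → ℝ) q ^ N) =
      fun q => ∏ _l : Fin N, ∏ j, ∑ i, (q.1 i - (γ j i : ℝ → ℝ) q.2) ^ 2 := by
    funext q
    rw [DD_apply, Finset.prod_const, Finset.card_univ, Fintype.card_fin]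
  have hc : ∀ j, Continuous fun q : EE n => ∑ i, (q.1 i - (γ j i : ℝ → ℝ) q.2) ^ 2 := by
    intro j
    refine continuous_finsetSum _ fun i _ => ?_
    exact (((continuous_apply i).comp continuous_fst).sub ((γ j i).cont.comp continuous_snd)).pow 2
  have h0 : ∀ j, ∀ q : EE n, 0 ≤ ∑ i, (q.1 i - (γ j i : ℝ → ℝ) q.2) ^ 2 :=
    fun j q => Finset.sum_nonneg fun i _ => sq_nonneg _
  rw [h1]
  refine Lo.prod _ _ (fun l _ => Lo.prod _ _ (fun j _ => Lo.dist (γ j)) (fun j _ => hc j)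
    (fun j _ => h0 j)) (fun l _ => continuous_finsetProd _ fun j _ => hc j)
    (fun l _ q => Finset.prod_nonneg fun j _ => h0 j q)

/-- the extension of a function to `ℝ^n × ℝ` -/
noncomputable def ext1 (f u : An (Fin n → ℝ)) : An (EE n) :=
  ⟨fun p => (f : (Fin n → ℝ) → ℝ) p.1 + (p.2 - (u : (Fin n → ℝ) → ℝ) p.1) ^ 2, fun p _ =>
    (AnalyticAt.comp (f.an _ trivial) analyticAt_fst).add
      ((analyticAt_snd.sub (AnalyticAt.comp (u.an _ trivial) analyticAt_fst)).pow 2)⟩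

theorem ext1_low {k : ℕ} (f u : An (Fin n → ℝ)) (γ : Fin k → Fin n → An ℝ) (N : ℕ)
    (hlow : ∀ p : Fin n → ℝ, ∃ c : ℝ, 0 < c ∧ ∀ᶠ q in 𝓝 p,
      c * ((DD γ : An (EE n)) : EE n → ℝ) (q, (u : (Fin n → ℝ) → ℝ) q) ^ N ≤
        (f : (Fin n → ℝ) → ℝ) q) (p : EE n) :
    ∃ c : ℝ, 0 < c ∧ ∀ᶠ q in 𝓝 p, c * ((DD γ : An (EE n)) : EE n → ℝ) q ^ N ≤
      ((ext1 f u : An (EE n)) : EE n → ℝ) q := by
  obtain ⟨C, hC, h1⟩ := Lo.DD (u := u) γ N p
  obtain ⟨c, hc, h2⟩ := hlow p.1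
  have h3 : ∀ᶠ q : EE n in 𝓝 p, c * ((DD γ : An (EE n)) : EE n → ℝ) (q.1, (u : (Fin n → ℝ) → ℝ) q.1) ^ N ≤
        (f : (Fin n → ℝ) → ℝ) q.1 := continuousAt_fst.eventually h2
  refine ⟨min c 1 / C, by positivity, ?_⟩
  filter_upwards [h1, h3] with q hq hq3
  set A := ((DD γ : An (EE n)) : EE n → ℝ) (q.1, (u : (Fin n → ℝ) → ℝ) q.1) ^ N with hA
  have hA0 : 0 ≤ A := pow_nonneg (DD_nonneg γ _) N
  have hs : 0 ≤ (q.2 - (u : (Fin n → ℝ) → ℝ) q.1) ^ 2 := sq_nonneg _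
  have h4 : min c 1 / C * ((DD γ : An (EE n)) : EE n → ℝ) q ^ N ≤
      min c 1 / C * (C * (A + (q.2 - (u : (Fin n → ℝ) → ℝ) q.1) ^ 2)) :=
    mul_le_mul_of_nonneg_left hq (by positivity)
  have h5 : min c 1 / C * (C * (A + (q.2 - (u : (Fin n → ℝ) → ℝ) q.1) ^ 2)) =
      min c 1 * A + min c 1 * (q.2 - (u : (Fin n → ℝ) → ℝ) q.1) ^ 2 := by
    field_simp
  have h6 : min c 1 * A ≤ c * A := mul_le_mul_of_nonneg_right (min_le_left _ _) hA0
  have h7 : min c 1 * (q.2 - (u : (Fin n → ℝ) → ℝ) q.1) ^ 2 ≤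
      1 * (q.2 - (u : (Fin n → ℝ) → ℝ) q.1) ^ 2 := mul_le_mul_of_nonneg_right (min_le_right _ _) hs
  have h8 : ((ext1 f u : An (EE n)) : EE n → ℝ) q =
    (f : (Fin n → ℝ) → ℝ) q.1 + (q.2 - (u : (Fin n → ℝ) → ℝ) q.1) ^ 2 := rfl
  rw [h8]
  linarith

section

variable {E : Type} [NormedAddCommGroup E] [NormedSpace ℝ E]
  {M : Type} [TopologicalSpace M] [ChartedSpace E M]

/-- pull back under an analytic map -/
noncomputable def MAn.pullMap {E' : Type} [NormedAddCommGroup E'] [NormedSpace ℝ E'] (G : M → E')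
    (hG : ContMDiff 𝓘(ℝ, E) 𝓘(ℝ, E') ω G) : An E' →+* MAn E M where
  toFun p := ⟨fun x => (p : E' → ℝ) (G x), (p.an.contDiff (n := ω)).comp_contMDiff hG⟩
  map_one' := MAn.ext fun _ => rfl
  map_mul' _ _ := MAn.ext fun _ => rfl
  map_zero' := MAn.ext fun _ => rfl
  map_add' _ _ := MAn.ext fun _ => rfl

end

end Run7.h470
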