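import Pool.Agent.Run7.h470.Base

/-!
Analytic functions dominating a given locally bounded function.
-/

set_option autoImplicit false

namespace Run7.h470

open Set Filter Topology

/-- a convergent sum of exponentials -/
theorem exists_dom_line (b : ℕ → ℝ) : ∃ Φ : ℝ → ℝ, AnalyticOnNhd ℝ Φ univ ∧
    ∀ (n : ℕ) (t : ℝ), (n : ℝ) ≤ t → 1 ≤ Φ t ∧ b n ≤ Φ t := by
  -- replace `b` by a sequence `≥ 1`
  let B : ℕ → ℝ := fun n => max 1 (b n)
  have hB : ∀ n, 1 ≤ B n := fun n => le_max_left _ _
  have hBb : ∀ n, b n ≤ B n := fun n => le_max_right _ _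
  let c : ℕ → ℝ := fun n => n + Real.log (B n)
  have hc : ∀ n, 0 ≤ c n := fun n => add_nonneg (Nat.cast_nonneg n) (Real.log_nonneg (hB n))
  let F : ℕ → ℂ → ℂ := fun n w => (B n : ℝ) * Complex.exp ((c n : ℝ) * (w - n))
  have hFn : ∀ n w, ‖F n w‖ = B n * Real.exp (c n * (w.re - n)) := by
    intro n w
    simp only [F]
    rw [norm_mul, Complex.norm_exp, Complex.norm_real, Real.norm_of_nonneg (by linarith [hB n]),
      Complex.re_ofReal_mul, Complex.sub_re, Complex.natCast_re]
  have hsum : ∀ R : ℝ, Summable fun n : ℕ => B n * Real.exp (c n * (R - n)) := by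
    intro R
    have h1 : Summable fun n : ℕ => Real.exp (-(n : ℝ)) := Real.summable_exp_neg_nat
    refine h1.of_norm_bounded_eventually ?_
    rw [Nat.cofinite_eq_atTop]
    obtain ⟨N, hN⟩ := exists_nat_ge (R + 1)
    filter_upwards [eventually_ge_atTop N] with n hn
    rw [Real.norm_of_nonneg (by have := hB n; positivity)]
    have h2 : R - n ≤ -1 := by
      have : (N : ℝ) ≤ n := by exact_mod_cast hn
      linarith
    have h3 : B n = Real.exp (Real.log (B n)) := (Real.exp_log (by linarith [hB n])).symm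
    calc B n * Real.exp (c n * (R - n)) = Real.exp (Real.log (B n) + c n * (R - n)) := by
          rw [Real.exp_add, ← h3]
      _ ≤ Real.exp (-(n : ℝ)) := by
          apply Real.exp_le_exp.mpr
          have h4 : c n * (R - n) ≤ c n * (-1) := mul_le_mul_of_nonneg_left h2 (hc n)
          simp only [c] at h4 ⊢
          linarith
  have hd : Differentiable ℂ (fun w => ∑' n, F n w) := by
    intro w
    have h1 : DifferentiableOn ℂ (fun w => ∑' n, F n w) (Metric.ball 0 (‖w‖ + 1)) := by
      refine Complex.differentiableOn_tsum_of_summable_norm (hsum (‖w‖ + 1)) (fun n => ?_)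
        Metric.isOpen_ball (fun n v hv => ?_)
      · simp only [F]
        fun_prop
      · rw [hFn]
        have h2 : v.re ≤ ‖w‖ + 1 := by
          have h3 : ‖v‖ < ‖w‖ + 1 := by simpa using hv
          have h4 := Complex.re_le_norm v
          linarith
        have h5 : c n * (v.re - n) ≤ c n * (‖w‖ + 1 - n) :=
          mul_le_mul_of_nonneg_left (by linarith) (hc n)
        have h6 : 0 ≤ B n := by linarith [hB n]
        exact mul_le_mul_of_nonneg_left (Real.exp_le_exp.mpr h5) h6
    exact (h1 w (by simp)).differentiableAt (Metric.isOpen_ball.mem_nhds (by simp))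
  have hval : ∀ t : ℝ, ∑' n, F n (t : ℂ) = ((∑' n, B n * Real.exp (c n * (t - n)) : ℝ) : ℂ) := by
    intro t
    rw [Complex.ofReal_tsum]
    refine tsum_congr fun n => ?_
    simp only [F]
    push_cast
    rfl
  refine ⟨fun t => ∑' n, B n * Real.exp (c n * (t - n)), ?_, ?_⟩
  · intro t _
    have h1 : AnalyticAt ℂ (fun w => ∑' n, F n w) (t : ℂ) := hd.analyticAt _
    refine h1.re_ofReal.congr (Filter.Eventually.of_forall fun s => ?_)
    simp only [hval, Complex.ofReal_re]
  · intro n t hn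
    have h1 : B n * Real.exp (c n * (t - n)) ≤ ∑' n, B n * Real.exp (c n * (t - n)) :=
      (hsum t).le_tsum n fun k _ => by have := hB k; positivity
    have h2 : 1 ≤ Real.exp (c n * (t - n)) :=
      Real.one_le_exp (mul_nonneg (hc n) (by linarith))
    have h3 : B n ≤ B n * Real.exp (c n * (t - n)) :=
      le_mul_of_one_le_right (by linarith [hB n]) h2
    exact ⟨(hB n).trans (h3.trans h1), (hBb n).trans (h3.trans h1)⟩

/-- Analytic domination: any function that is bounded above on bounded sets is dominated by an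
analytic function. -/
theorem exists_dom {E : Type} [NormedAddCommGroup E] [NormedSpace ℝ E] (ρ : E → ℝ)
    (hρ : AnalyticOnNhd ℝ ρ univ) (hρ0 : ∀ x, 0 ≤ ρ x) (κ : E → ℝ)
    (hκ : ∀ n : ℕ, BddAbove (κ '' {x | ρ x ≤ n})) :
    ∃ K : An E, ∀ x, 1 ≤ (K : E → ℝ) x ∧ κ x ≤ (K : E → ℝ) x := by
  choose b hb using fun n : ℕ => hκ (n + 1)
  obtain ⟨Φ, hΦ, hΦb⟩ := exists_dom_line b
  refine ⟨⟨fun x => Φ (ρ x), fun x _ => (hΦ (ρ x) trivial).comp (hρ x trivial)⟩, fun x => ?_⟩
  have h1 := Nat.floor_le (hρ0 x)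
  have h2 := (Nat.lt_floor_add_one (ρ x)).le
  obtain ⟨h3, h4⟩ := hΦb ⌊ρ x⌋₊ (ρ x) h1
  refine ⟨h3, le_trans ?_ h4⟩
  exact hb ⌊ρ x⌋₊ ⟨x, by simpa using h2, rfl⟩

end Run7.h470
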