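import Pool.Agent.Run7.h470.Line

/-!
Transfer of elementary statements from the real points of the line to the orderings of the field of
meromorphic functions on the line.
-/

set_option autoImplicit false

namespace Run7.h470

open Set Filter Topology
open Pool.Agent.Helper716_Lang

/-- the real numbers as a model -/
noncomputable def RM : RC.Model :=
  haveI := RC.isRealClosed_real
  RC.Model.mk ℝ

theorem aeval_map {ι : Type} {M : RC.Model} (φ : An ℝ →+* M.F) (c : ι → An ℝ)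
    (q : MvPolynomial ι ℚ) :
    MvPolynomial.aeval (fun i => φ (c i)) q = φ (MvPolynomial.aeval c q) := by
  rw [MvPolynomial.aeval_def, MvPolynomial.aeval_def, MvPolynomial.hom_eval₂]
  congr 1
  exact Subsingleton.elim _ _

theorem aeval_apply {ι : Type} (c : ι → An ℝ) (q : MvPolynomial ι ℚ) (z : ℝ) :
    MvPolynomial.aeval (fun i => (c i : ℝ → ℝ) z) q = ((MvPolynomial.aeval c q : An ℝ) : ℝ → ℝ) z := by
  let ev : An ℝ →+* ℝ := (Pi.evalRingHom (fun _ : ℝ => ℝ) z).comp (anSub ℝ).val.toRingHom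
  have h : ∀ f : An ℝ, ev f = (f : ℝ → ℝ) z := fun f => rfl
  rw [← h, MvPolynomial.aeval_def, MvPolynomial.aeval_def, MvPolynomial.hom_eval₂]
  congr 1

/-- The transfer principle. -/
theorem transfer {M : RC.Model} (φ : An ℝ →+* M.F) (hφ : Function.Injective φ) {ι : Type}
    {p : RC.Pt ι → Prop} (hp : RC.SAP p) (c : ι → An ℝ)
    (h : ∀ z : ℝ, p ⟨RM, fun i => (c i : ℝ → ℝ) z⟩) : p ⟨M, fun i => φ (c i)⟩ := by
  obtain ⟨Q, hQ⟩ := hp
  obtain ⟨z, hz⟩ := artin_lang_line φ hφ Q (fun q => MvPolynomial.aeval c q)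
  refine hQ ⟨RM, fun i => (c i : ℝ → ℝ) z⟩ ⟨M, fun i => φ (c i)⟩ (fun q hq => ?_) (h z)
  have h1 := hz q hq
  rw [← aeval_map, ← aeval_apply] at h1
  exact h1

/-- the value of a polynomial as a predicate -/
theorem nonneg_sap {m : ℕ} (A : Finset (Fin m →₀ ℕ)) :
    RC.SAP (fun v : RC.Pt A => ∀ s : Fin m → v.1.F, 0 ≤ RC.val A v.2 s) := by
  have h1 : RC.SAP (fun u : RC.Pt (A ⊕ Fin m) =>
      0 ≤ RC.val A (fun α => u.2 (Sum.inl α)) (fun i => u.2 (Sum.inr i))) := by
    refine RC.SAP.leM RC.PF.zeroM ?_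
    exact RC.PF.sumM _ fun α _ => (RC.PF.coordM _).mulM (RC.PF.prodM _ fun i _ => (RC.PF.coordM _).powM _)
  exact RC.SAP.forall_blockM h1

/-- Nonnegativity of polynomials with analytic coefficients transfers. -/
theorem transfer_nonneg {M : RC.Model} (φ : An ℝ →+* M.F) (hφ : Function.Injective φ) {m : ℕ}
    (A : Finset (Fin m →₀ ℕ)) (c : A → An ℝ)
    (h : ∀ (z : ℝ) (s : Fin m → ℝ), 0 ≤ RC.val A (fun α => (c α : ℝ → ℝ) z) s) (s : Fin m → M.F) :
    0 ≤ RC.val A (fun α => φ (c α)) s :=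
  transfer φ hφ (nonneg_sap A) c (fun z => h z) s

end Run7.h470
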