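import Pool.Agent.Run7.h470.Hada
import Pool.Agent.Run7.h470.Transfer

/-!
Expansion of an analytic function along finitely many analytic graphs.
-/

set_option autoImplicit false

namespace Run7.h470

open Set Filter Topology
open Pool.Agent.Helper716_Lang

/-- the space `ℝ^m × ℝ` -/
abbrev EE (m : ℕ) : Type := (Fin m → ℝ) × ℝ

variable {m k : ℕ}

/-- the coordinates -/
noncomputable def co (i : Fin m) : An (EE m) :=
  ⟨fun p => p.1 i, fun p _ =>
    ((ContinuousLinearMap.proj (R := ℝ) (φ := fun _ : Fin m => ℝ) i).comp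
      (ContinuousLinearMap.fst ℝ (Fin m → ℝ) ℝ)).analyticAt p⟩

/-- functions of the last variable -/
noncomputable def io : An ℝ →+* An (EE m) where
  toFun c := ⟨fun p => (c : ℝ → ℝ) p.2, fun p _ => (c.an p.2 trivial).comp analyticAt_snd⟩
  map_one' := An.ext fun _ => rfl
  map_mul' _ _ := An.ext fun _ => rfl
  map_zero' := An.ext fun _ => rfl
  map_add' _ _ := An.ext fun _ => rfl

@[simp] theorem co_apply (i : Fin m) (p : EE m) : ((co i : An (EE m)) : EE m → ℝ) p = p.1 i := rfl
@[simp] theorem io_apply (c : An ℝ) (p : EE m) :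
    ((io c : An (EE m)) : EE m → ℝ) p = (c : ℝ → ℝ) p.2 := rfl

/-- evaluation at a point -/
noncomputable def evp {E : Type} [NormedAddCommGroup E] [NormedSpace ℝ E] (p : E) : An E →+* ℝ :=
  (Pi.evalRingHom (fun _ : E => ℝ) p).comp (anSub E).val.toRingHom

theorem evp_apply {E : Type} [NormedAddCommGroup E] [NormedSpace ℝ E] (p : E) (f : An E) :
    evp p f = (f : E → ℝ) p := rfl

/-- polynomials -/
noncomputable def evP : MvPolynomial (Fin m) (An ℝ) →+* An (EE m) :=
  MvPolynomial.eval₂Hom io co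

/-- `g` depends only on the coordinates in `S` and the last one -/
def Indep (S : Finset (Fin m)) (g : An (EE m)) : Prop :=
  ∀ p q : EE m, p.2 = q.2 → (∀ i ∈ S, p.1 i = q.1 i) → (g : EE m → ℝ) p = (g : EE m → ℝ) q

theorem analyticAt_update (i : Fin m) {F : Type} [NormedAddCommGroup F] [NormedSpace ℝ F]
    (a : F → Fin m → ℝ) (b c : F → ℝ) (p : F) (ha : AnalyticAt ℝ a p) (hb : AnalyticAt ℝ b p)
    (hc : AnalyticAt ℝ c p) :
    AnalyticAt ℝ (fun p => ((Function.update (a p) i (b p), c p) : EE m)) p := by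
  refine AnalyticAt.prod ?_ hc
  refine AnalyticAt.pi fun j => ?_
  by_cases hj : j = i
  · subst hj
    simpa using hb
  · have h1 : (fun p => Function.update (a p) i (b p) j) = fun p => a p j := by
      funext p
      rw [Function.update_of_ne hj]
    rw [h1]
    exact ((ContinuousLinearMap.proj (R := ℝ) (φ := fun _ : Fin m => ℝ) j).analyticAt _).comp ha

/-- substitution of `ψ z` for `x_i` -/
noncomputable def subst (i : Fin m) (ψ : An ℝ) (g : An (EE m)) : An (EE m) :=
  ⟨fun p => (g : EE m → ℝ) (Function.update p.1 i ((ψ : ℝ → ℝ) p.2), p.2), fun p _ =>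
    (g.an _ trivial).comp (analyticAt_update i (fun p : EE m => p.1) (fun p => (ψ : ℝ → ℝ) p.2)
      (fun p => p.2) p analyticAt_fst ((ψ.an _ trivial).comp analyticAt_snd) analyticAt_snd)⟩

theorem subst_indep {i : Fin m} {S : Finset (Fin m)} {g : An (EE m)} (ψ : An ℝ)
    (hg : Indep (insert i S) g) : Indep S (subst i ψ g) := by
  intro p q hpq hS
  simp only [subst]
  refine hg _ _ hpq fun j hj => ?_
  by_cases hji : j = i
  · subst hji
    simp [hpq]
  · simp only [Function.update_of_ne hji]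
    exact hS j ((Finset.mem_insert.mp hj).resolve_left hji)

/-- division by `x_i - ψ z` -/
theorem div_coord (i : Fin m) (ψ : An ℝ) (g : An (EE m)) : ∃ r : An (EE m),
    g = subst i ψ g + (co i - io ψ) * r ∧ ∀ S : Finset (Fin m), i ∈ S → Indep S g → Indep S r := by
  let G : EE m × ℝ → ℝ := fun v =>
    (g : EE m → ℝ) (Function.update v.1.1 i ((ψ : ℝ → ℝ) v.1.2 + v.2), v.1.2) -
    (g : EE m → ℝ) (Function.update v.1.1 i ((ψ : ℝ → ℝ) v.1.2), v.1.2)
  have h1 : ∀ v : EE m × ℝ, AnalyticAt ℝ (fun v : EE m × ℝ => v.1.1) v := fun v =>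
    AnalyticAt.comp (g := Prod.fst) analyticAt_fst analyticAt_fst
  have h2 : ∀ v : EE m × ℝ, AnalyticAt ℝ (fun v : EE m × ℝ => v.1.2) v := fun v =>
    AnalyticAt.comp (g := Prod.snd) analyticAt_snd analyticAt_fst
  have h3 : ∀ v : EE m × ℝ, AnalyticAt ℝ (fun v : EE m × ℝ => (ψ : ℝ → ℝ) v.1.2) v := fun v =>
    AnalyticAt.comp (ψ.an _ trivial) (h2 v)
  have hG : AnalyticOnNhd ℝ G univ := by
    intro v _
    refine AnalyticAt.sub ?_ ?_
    · exact AnalyticAt.comp (g.an _ trivial) (analyticAt_update i (fun v : EE m × ℝ => v.1.1)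
        (fun v => (ψ : ℝ → ℝ) v.1.2 + v.2) (fun v => v.1.2) v (h1 v) ((h3 v).add analyticAt_snd) (h2 v))
    · exact AnalyticAt.comp (g.an _ trivial) (analyticAt_update i (fun v : EE m × ℝ => v.1.1)
        (fun v => (ψ : ℝ → ℝ) v.1.2) (fun v => v.1.2) v (h1 v) (h3 v) (h2 v))
  obtain ⟨H, hH, hGH⟩ := hadamard hG (fun y => by simp [G])
  let r : An (EE m) := ⟨fun p => H (p, p.1 i - (ψ : ℝ → ℝ) p.2), fun p _ => by
    refine AnalyticAt.comp (hH _ trivial) (AnalyticAt.prod analyticAt_id ?_)
    exact ((co i).an p trivial).sub ((ψ.an _ trivial).comp analyticAt_snd)⟩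
  refine ⟨r, ?_, ?_⟩
  · refine An.ext fun p => ?_
    have h4 := hGH (p, p.1 i - (ψ : ℝ → ℝ) p.2)
    simp only [G] at h4
    have h5 : Function.update p.1 i ((ψ : ℝ → ℝ) p.2 + (p.1 i - (ψ : ℝ → ℝ) p.2)) = p.1 := by
      rw [add_sub_cancel, Function.update_eq_self]
    rw [h5] at h4
    simp only [An.coe_add, An.coe_mul, An.coe_sub, co_apply, io_apply, subst, r]
    rw [← h4]
    ring
  · intro S hi hg p q hpq hS
    simp only [r]
    have h4 : ∀ t, H (p, t) = H (q, t) := by
      have h5 : ∀ t, t * H (p, t) = t * H (q, t) := by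
        intro t
        rw [← hGH (p, t), ← hGH (q, t)]
        simp only [G]
        congr 1
        · refine hg _ _ hpq fun j hj => ?_
          by_cases hji : j = i
          · subst hji
            simp [hpq]
          · simp only [Function.update_of_ne hji]
            exact hS j hj
        · refine hg _ _ hpq fun j hj => ?_
          by_cases hji : j = i
          · subst hji
            simp [hpq]
          · simp only [Function.update_of_ne hji]
            exact hS j hj
      have hc : ∀ p : EE m, Continuous fun t : ℝ => H (p, t) := by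
        intro p
        have h6 : Continuous H := by
          have := hH.continuousOn
          rwa [continuousOn_univ] at this
        fun_prop
      have h7 : (fun t => H (p, t)) = fun t => H (q, t) := by
        refine Continuous.ext_on (s := {(0 : ℝ)}ᶜ) (dense_compl_singleton 0) (hc p) (hc q) ?_
        intro t ht
        exact mul_left_cancel₀ ht (h5 t)
      exact fun t => congrFun h7 t
    rw [h4, hpq, hS i hi]

/-- the products `Q_i` -/
noncomputable def QQ (ψ : Fin k → Fin m → An ℝ) (i : Fin m) : An (EE m) :=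
  ∏ j, (co i - io (ψ j i))

/-- Expansion of order one. -/
theorem expand_one (ψ : Fin k → Fin m → An ℝ) (g : An (EE m)) :
    ∃ (P : MvPolynomial (Fin m) (An ℝ)) (r : Fin m → An (EE m)),
      g = evP P + ∑ i, r i * QQ ψ i := by
  classical
  let J : Ideal (An (EE m)) := Ideal.span (Set.range (QQ ψ))
  let S : Subsemiring (An (EE m)) :=
    Subsemiring.comap (Ideal.Quotient.mk J) ((Ideal.Quotient.mk J).comp evP).rangeS
  have hev : ∀ P, evP P ∈ S := fun P => ⟨P, rfl⟩
  have hQ : ∀ i r, QQ ψ i * r ∈ S := by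
    intro i r
    refine ⟨0, ?_⟩
    rw [map_zero]
    symm
    rw [Ideal.Quotient.eq_zero_iff_mem]
    exact J.mul_mem_right _ (Ideal.subset_span ⟨i, rfl⟩)
  have hcoio : ∀ i (c : An ℝ), (co i - io c : An (EE m)) ∈ S := by
    intro i c
    have := hev (MvPolynomial.X i - MvPolynomial.C c)
    simpa [evP] using this
  have hio : ∀ c, (io c : An (EE m)) ∈ S := by
    intro c
    have := hev (MvPolynomial.C c)
    simpa [evP] using this
  -- the main induction
  have key : ∀ (T : Finset (Fin m)) (g : An (EE m)), Indep T g → g ∈ S := by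
    intro T
    induction T using Finset.induction_on with
    | empty =>
      intro g hg
      let c : An ℝ := ⟨fun z => (g : EE m → ℝ) (0, z), fun z _ =>
        AnalyticAt.comp (g.an _ trivial) (analyticAt_const.prod analyticAt_id)⟩
      have h1 : g = io c := An.ext fun p => hg p (0, p.2) rfl (fun i hi => absurd hi (Finset.notMem_empty i))
      rw [h1]
      exact hio c
    | insert i T hi ih =>
      intro g hg
      have h2 : ∀ U : Finset (Fin k), ∃ g' ∈ S, ∃ r : An (EE m), Indep (insert i T) r ∧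
          g = g' + (∏ j ∈ U, (co i - io (ψ j i))) * r := by
        intro U
        induction U using Finset.induction_on with
        | empty => exact ⟨0, S.zero_mem, g, hg, by simp⟩
        | insert j U hj ihU =>
          obtain ⟨g', hg', r, hr, hgr⟩ := ihU
          obtain ⟨r', hr', hind⟩ := div_coord i (ψ j i) r
          refine ⟨g' + (∏ j ∈ U, (co i - io (ψ j i))) * subst i (ψ j i) r,
            S.add_mem hg' (S.mul_mem (S.prod_mem fun l _ => hcoio i _)
              (ih _ (subst_indep _ hr))), r', hind _ (Finset.mem_insert_self i T) hr, ?_⟩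
          rw [Finset.prod_insert hj]
          conv_lhs => rw [hgr, hr']
          ring
      obtain ⟨g', hg', r, _, hgr⟩ := h2 Finset.univ
      rw [hgr]
      exact S.add_mem hg' (hQ i r)
  obtain ⟨P, hP⟩ := key Finset.univ g (fun p q h1 h2 => by
    have : p = q := Prod.ext (funext fun i => h2 i (Finset.mem_univ i)) h1
    rw [this])
  have h3 : g - evP P ∈ J := by
    rw [← Ideal.Quotient.eq_zero_iff_mem, map_sub, sub_eq_zero]
    exact hP.symm
  rw [Ideal.mem_span_range_iff_exists_fun] at h3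
  obtain ⟨r, hr⟩ := h3
  exact ⟨P, r, by rw [hr]; ring⟩

/-- a bound valid for all orderings -/
def Bd (D : An (EE m)) (L : ℕ) (w : An (EE m)) : Prop :=
  ∃ B : An (EE m), (∀ p, 1 ≤ (B : EE m → ℝ) p) ∧
    ∀ (N : RC.Model) (φ : An (EE m) →+* N.F), 0 ≤ φ D → φ w ^ 2 ≤ φ D ^ L * φ B

theorem phi_pos_of_one_le {B : An (EE m)} (h : ∀ p, 1 ≤ (B : EE m → ℝ) p) {N : RC.Model}
    (φ : An (EE m) →+* N.F) : 0 < φ B := pos_of_pos fun p => one_pos.trans_le (h p)

theorem Bd.zero (D w : An (EE m)) : Bd D 0 w := by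
  refine ⟨w ^ 2 + 1, fun p => ?_, fun N φ _ => ?_⟩
  · simp only [An.coe_add, An.coe_pow, An.coe_one]
    nlinarith [sq_nonneg ((w : EE m → ℝ) p)]
  · rw [map_add, map_pow, map_one, pow_zero, one_mul]
    linarith

theorem Bd.of_zero (D : An (EE m)) (L : ℕ) : Bd D L 0 := by
  refine ⟨1, fun p => by simp, fun N φ hD => ?_⟩
  rw [map_zero, map_one, mul_one]
  have := pow_nonneg hD L
  nlinarith

theorem Bd.add {D : An (EE m)} {L : ℕ} {w w' : An (EE m)} (h : Bd D L w) (h' : Bd D L w') :
    Bd D L (w + w') := by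
  obtain ⟨B, hB, hBφ⟩ := h
  obtain ⟨B', hB', hBφ'⟩ := h'
  refine ⟨2 * B + 2 * B', fun p => ?_, fun N φ hD => ?_⟩
  · have h1 := hB p
    have h2 := hB' p
    have h3 : ((2 * B + 2 * B' : An (EE m)) : EE m → ℝ) p =
      2 * (B : EE m → ℝ) p + 2 * (B' : EE m → ℝ) p := rfl
    rw [h3]
    linarith
  · have h1 := hBφ N φ hD
    have h2 := hBφ' N φ hD
    rw [map_add, map_add, map_mul, map_mul, map_ofNat]
    nlinarith [sq_nonneg (φ w - φ w')]

theorem Bd.mul {D Q : An (EE m)} (hQ : ∀ (N : RC.Model) (φ : An (EE m) →+* N.F), φ Q ^ 2 ≤ φ D)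
    {L : ℕ} {w : An (EE m)} (h : Bd D L w) : Bd D (L + 1) (w * Q) := by
  obtain ⟨B, hB, hBφ⟩ := h
  refine ⟨B, hB, fun N φ hD => ?_⟩
  have h1 := hBφ N φ hD
  have h2 := hQ N φ
  rw [map_mul, mul_pow, pow_succ (φ D) L]
  calc φ w ^ 2 * φ Q ^ 2 ≤ (φ D ^ L * φ B) * φ D :=
        mul_le_mul h1 h2 (sq_nonneg _) (mul_nonneg (pow_nonneg hD _) (phi_pos_of_one_le hB φ).le)
    _ = φ D ^ L * φ D * φ B := by ring

theorem Bd.sum {D : An (EE m)} {L : ℕ} {ι : Type} (s : Finset ι) (w : ι → An (EE m))
    (h : ∀ i ∈ s, Bd D L (w i)) : Bd D L (∑ i ∈ s, w i) := by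
  classical
  induction s using Finset.induction_on with
  | empty => simpa using Bd.of_zero D L
  | insert i s hi ih =>
    rw [Finset.sum_insert hi]
    exact (h i (Finset.mem_insert_self _ _)).add (ih fun j hj => h j (Finset.mem_insert_of_mem hj))

/-- the product of the squared distances to the graphs -/
noncomputable def DD (ψ : Fin k → Fin m → An ℝ) : An (EE m) :=
  ∏ j, ∑ i, (co i - io (ψ j i)) ^ 2

theorem phi_DD_nonneg (ψ : Fin k → Fin m → An ℝ) {N : RC.Model} (φ : An (EE m) →+* N.F) :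
    0 ≤ φ (DD ψ) := by
  unfold DD
  rw [map_prod]
  refine Finset.prod_nonneg fun j _ => ?_
  rw [map_sum]
  refine Finset.sum_nonneg fun i _ => ?_
  rw [map_pow]
  exact sq_nonneg _

theorem phi_QQ_le (ψ : Fin k → Fin m → An ℝ) (i : Fin m) (N : RC.Model)
    (φ : An (EE m) →+* N.F) : φ (QQ ψ i) ^ 2 ≤ φ (DD ψ) := by
  unfold QQ DD
  rw [map_prod, map_prod, ← Finset.prod_pow]
  refine Finset.prod_le_prod (fun j _ => sq_nonneg _) fun j _ => ?_
  rw [map_sum]
  simp only [map_pow]
  exact Finset.single_le_sum (f := fun i => φ (co i - io (ψ j i)) ^ 2)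
    (fun i _ => sq_nonneg _) (Finset.mem_univ i)

/-- Expansion of order `L`. -/
theorem expand (ψ : Fin k → Fin m → An ℝ) (L : ℕ) : ∀ g : An (EE m),
    ∃ P : MvPolynomial (Fin m) (An ℝ), Bd (DD ψ) L (g - evP P) := by
  induction L with
  | zero => exact fun g => ⟨0, Bd.zero _ _⟩
  | succ L ih =>
    intro g
    obtain ⟨P, r, hg⟩ := expand_one ψ g
    choose P' hP' using fun i => ih (r i)
    obtain ⟨R, hR⟩ : ∃ R : Fin m → MvPolynomial (Fin m) (An ℝ), ∀ i, evP (R i) = QQ ψ i := by
      refine ⟨fun i => ∏ j, (MvPolynomial.X i - MvPolynomial.C (ψ j i)), fun i => ?_⟩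
      rw [map_prod]
      simp [QQ, evP]
    refine ⟨P + ∑ i, P' i * R i, ?_⟩
    have h1 : g - evP (P + ∑ i, P' i * R i) = ∑ i, (r i - evP (P' i)) * QQ ψ i := by
      rw [map_add, map_sum]
      conv_lhs => rw [hg]
      simp only [map_mul, hR, sub_mul, Finset.sum_sub_distrib]
      ring
    rw [h1]
    exact Bd.sum _ _ fun i _ => (hP' i).mul (phi_QQ_le ψ i)

end Run7.h470
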