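import Pool.Agent.Run7.h470.Expand
import Pool.Agent.Run7.h470.Dom

/-!
Non-negative functions bounded below by a power of the distance to finitely many analytic graphs.
-/

set_option autoImplicit false

namespace Run7.h470

open Set Filter Topology
open Pool.Agent.Helper716_Lang

variable {m k : ℕ}

theorem DD_apply (ψ : Fin k → Fin m → An ℝ) (p : EE m) :
    ((DD ψ : An (EE m)) : EE m → ℝ) p = ∏ j, ∑ i, (p.1 i - (ψ j i : ℝ → ℝ) p.2) ^ 2 := by
  rw [← evp_apply, DD, map_prod]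
  refine Finset.prod_congr rfl fun j _ => ?_
  rw [map_sum]
  refine Finset.sum_congr rfl fun i _ => ?_
  rw [map_pow, map_sub, evp_apply, evp_apply, co_apply, io_apply]

theorem DD_nonneg (ψ : Fin k → Fin m → An ℝ) (p : EE m) : 0 ≤ ((DD ψ : An (EE m)) : EE m → ℝ) p := by
  rw [DD_apply]
  exact Finset.prod_nonneg fun j _ => Finset.sum_nonneg fun i _ => sq_nonneg _

theorem phi_evP {R : Type} [Field R] (φ : An (EE m) →+* R) (P : MvPolynomial (Fin m) (An ℝ)) :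
    φ (evP P) = RC.val P.support (fun α => φ (io (P.coeff α.1))) (fun i => φ (co i)) := by
  rw [evP, MvPolynomial.coe_eval₂Hom, MvPolynomial.eval₂_eq', RC.val, map_sum,
    ← Finset.sum_coe_sort P.support]
  refine Finset.sum_congr rfl fun α _ => ?_
  rw [map_mul, map_prod]
  simp only [map_pow]

/-- the region near the graphs over a bounded interval is compact -/
theorem isCompact_region (ψ : Fin k → Fin m → An ℝ) (R : ℝ) :
    IsCompact {p : EE m | |p.2| ≤ R ∧ ((DD ψ : An (EE m)) : EE m → ℝ) p ≤ 1 / 2} := by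
  have hcl : IsClosed {p : EE m | |p.2| ≤ R ∧ ((DD ψ : An (EE m)) : EE m → ℝ) p ≤ 1 / 2} := by
    refine IsClosed.inter ?_ ?_
    · exact isClosed_le (continuous_snd.abs) continuous_const
    · exact isClosed_le (DD ψ).cont continuous_const
  have hK : IsCompact (⋃ j : Fin k, (fun q : EE m => ((fun i => q.1 i + (ψ j i : ℝ → ℝ) q.2, q.2) : EE m)) ''
      (Metric.closedBall (0 : Fin m → ℝ) 1 ×ˢ Metric.closedBall (0 : ℝ) R)) := by
    refine isCompact_iUnion fun j => ?_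
    refine ((isCompact_closedBall _ _).prod (isCompact_closedBall _ _)).image ?_
    refine Continuous.prodMk ?_ continuous_snd
    refine continuous_pi fun i => ?_
    exact ((continuous_apply i).comp continuous_fst).add ((ψ j i).cont.comp continuous_snd)
  refine hK.of_isClosed_subset hcl ?_
  rintro p ⟨hp1, hp2⟩
  rw [DD_apply] at hp2
  obtain ⟨j, hj⟩ : ∃ j, ∑ i, (p.1 i - (ψ j i : ℝ → ℝ) p.2) ^ 2 < 1 := by
    by_contra hcon
    push Not at hcon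
    have h1 : (1 : ℝ) ≤ ∏ j, ∑ i, (p.1 i - (ψ j i : ℝ → ℝ) p.2) ^ 2 :=
      Finset.one_le_prod (s := Finset.univ) (f := fun j => ∑ i, (p.1 i - (ψ j i : ℝ → ℝ) p.2) ^ 2)
        fun j _ => hcon j
    linarith
  refine mem_iUnion.mpr ⟨j, ⟨(fun i => p.1 i - (ψ j i : ℝ → ℝ) p.2, p.2), ⟨?_, ?_⟩, ?_⟩⟩
  · rw [mem_closedBall_zero_iff, pi_norm_le_iff_of_nonneg zero_le_one]
    intro i
    rw [Real.norm_eq_abs]
    have h1 : (p.1 i - (ψ j i : ℝ → ℝ) p.2) ^ 2 ≤ ∑ i, (p.1 i - (ψ j i : ℝ → ℝ) p.2) ^ 2 :=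
      Finset.single_le_sum (f := fun i => (p.1 i - (ψ j i : ℝ → ℝ) p.2) ^ 2)
        (fun i _ => sq_nonneg _) (Finset.mem_univ i)
    exact (sq_le_one_iff_abs_le_one _).mp (h1.trans hj.le)
  · simpa using hp1
  · refine Prod.ext (funext fun i => ?_) rfl
    simp

/-- lower bound near the graphs, uniformly on bounded intervals -/
theorem exists_lower (ψ : Fin k → Fin m → An ℝ) (N : ℕ) (F : An (EE m))
    (hlow : ∀ p : EE m, ∃ c : ℝ, 0 < c ∧ ∀ᶠ q in 𝓝 p,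
      c * ((DD ψ : An (EE m)) : EE m → ℝ) q ^ N ≤ (F : EE m → ℝ) q)
    (P : MvPolynomial (Fin m) (An ℝ)) (hP : Bd (DD ψ) (2 * N + 1) (F - evP P)) (R : ℝ) :
    ∃ κ : ℝ, 0 < κ ∧ ∀ z : ℝ, |z| ≤ R → ∀ x : Fin m → ℝ,
      κ * ((DD ψ : An (EE m)) : EE m → ℝ) (x, z) ≤ 1 →
      ((DD ψ : An (EE m)) : EE m → ℝ) (x, z) ^ N ≤ κ * ((evP P : An (EE m)) : EE m → ℝ) (x, z) := by
  classical
  have hc := isCompact_region ψ R
  set K := {p : EE m | |p.2| ≤ R ∧ ((DD ψ : An (EE m)) : EE m → ℝ) p ≤ 1 / 2} with hK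
  obtain ⟨c, hc0, hcK⟩ : ∃ c : ℝ, 0 < c ∧ ∀ p ∈ K,
      c * ((DD ψ : An (EE m)) : EE m → ℝ) p ^ N ≤ (F : EE m → ℝ) p := by
    refine hc.induction_on (p := fun s => ∃ c : ℝ, 0 < c ∧ ∀ p ∈ s,
      c * ((DD ψ : An (EE m)) : EE m → ℝ) p ^ N ≤ (F : EE m → ℝ) p) ?_ ?_ ?_ ?_
    · exact ⟨1, one_pos, fun p hp => absurd hp (notMem_empty p)⟩
    · rintro s t hst ⟨c, hc, h⟩
      exact ⟨c, hc, fun p hp => h p (hst hp)⟩
    · rintro s t ⟨c, hc, h⟩ ⟨c', hc', h'⟩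
      refine ⟨min c c', lt_min hc hc', ?_⟩
      rintro p (hp | hp)
      · exact (mul_le_mul_of_nonneg_right (min_le_left _ _) (pow_nonneg (DD_nonneg ψ p) _)).trans (h p hp)
      · exact (mul_le_mul_of_nonneg_right (min_le_right _ _) (pow_nonneg (DD_nonneg ψ p) _)).trans (h' p hp)
    · intro p _
      obtain ⟨c, hc, h⟩ := hlow p
      exact ⟨_, mem_nhdsWithin_of_mem_nhds h, c, hc, fun q hq => hq⟩
  obtain ⟨B, hB, hBφ⟩ := hP
  obtain ⟨b, hb⟩ := hc.exists_bound_of_continuousOn B.cont.continuousOn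
  have hb' : ∀ p ∈ K, (B : EE m → ℝ) p ≤ |b| := fun p hp =>
    (le_abs_self _).trans ((hb p hp).trans (le_abs_self b))
  refine ⟨2 + 4 * |b| / c ^ 2 + 2 / c, by positivity, fun z hz x hx => ?_⟩
  set κ := 2 + 4 * |b| / c ^ 2 + 2 / c with hκ
  have hκ1 : 2 ≤ κ := by
    have : 0 ≤ 4 * |b| / c ^ 2 := by positivity
    have : 0 ≤ 2 / c := by positivity
    linarith
  have hκ2 : 4 * |b| / c ^ 2 ≤ κ := by
    have : 0 ≤ 2 / c := by positivity
    linarith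
  have hκ3 : 2 / c ≤ κ := by
    have : 0 ≤ 4 * |b| / c ^ 2 := by positivity
    linarith
  set D := ((DD ψ : An (EE m)) : EE m → ℝ) (x, z) with hD
  have hD0 : 0 ≤ D := DD_nonneg ψ _
  have hDh : D ≤ 1 / 2 := by nlinarith
  have hmem : ((x, z) : EE m) ∈ K := ⟨hz, hDh⟩
  have h1 := hcK _ hmem
  have h2 := hb' _ hmem
  have h3 : (F : EE m → ℝ) (x, z) - ((evP P : An (EE m)) : EE m → ℝ) (x, z) =
    ((F - evP P : An (EE m)) : EE m → ℝ) (x, z) := rfl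
  have h4 : (((F - evP P : An (EE m)) : EE m → ℝ) (x, z)) ^ 2 ≤
      D ^ (2 * N + 1) * (B : EE m → ℝ) (x, z) := hBφ RM (evp (x, z)) hD0
  set w := ((F - evP P : An (EE m)) : EE m → ℝ) (x, z) with hw
  set q := ((evP P : An (EE m)) : EE m → ℝ) (x, z) with hq
  rw [← hD] at h1
  have hDN : 0 ≤ D ^ N := pow_nonneg hD0 _
  have h5 : w ^ 2 ≤ (c / 2 * D ^ N) ^ 2 := by
    have h6 : D * (B : EE m → ℝ) (x, z) ≤ c ^ 2 / 4 := by
      have h7 : D * (4 * |b| / c ^ 2) ≤ 1 := by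
        have : D * (4 * |b| / c ^ 2) ≤ D * κ := mul_le_mul_of_nonneg_left hκ2 hD0
        linarith [mul_comm D κ]
      have h8 : D * (4 * |b|) ≤ c ^ 2 := by
        have h9 : D * (4 * |b| / c ^ 2) = D * (4 * |b|) / c ^ 2 := by ring
        rw [h9, div_le_one (by positivity)] at h7
        exact h7
      have h9 : D * (B : EE m → ℝ) (x, z) ≤ D * |b| := mul_le_mul_of_nonneg_left h2 hD0
      linarith
    calc w ^ 2 ≤ D ^ (2 * N + 1) * (B : EE m → ℝ) (x, z) := h4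
      _ = (D ^ N) ^ 2 * (D * (B : EE m → ℝ) (x, z)) := by ring
      _ ≤ (D ^ N) ^ 2 * (c ^ 2 / 4) := mul_le_mul_of_nonneg_left h6 (sq_nonneg _)
      _ = (c / 2 * D ^ N) ^ 2 := by ring
  have h6 : |w| ≤ c / 2 * D ^ N := abs_le_of_sq_le_sq h5 (by positivity)
  have h7 : c / 2 * D ^ N ≤ q := by
    have := le_abs_self w
    linarith
  calc D ^ N = (2 / c) * (c / 2 * D ^ N) := by field_simp
    _ ≤ (2 / c) * q := mul_le_mul_of_nonneg_left h7 (by positivity)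
    _ ≤ κ * q := mul_le_mul_of_nonneg_right hκ3 (le_trans (by positivity) h7)

/-- the lower bound with an analytic constant -/
theorem exists_lower_an (ψ : Fin k → Fin m → An ℝ) (N : ℕ) (F : An (EE m))
    (hlow : ∀ p : EE m, ∃ c : ℝ, 0 < c ∧ ∀ᶠ q in 𝓝 p,
      c * ((DD ψ : An (EE m)) : EE m → ℝ) q ^ N ≤ (F : EE m → ℝ) q)
    (P : MvPolynomial (Fin m) (An ℝ)) (hP : Bd (DD ψ) (2 * N + 1) (F - evP P)) :
    ∃ K : An ℝ, (∀ z, 1 ≤ (K : ℝ → ℝ) z) ∧ ∀ (z : ℝ) (x : Fin m → ℝ),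
      (K : ℝ → ℝ) z * ((DD ψ : An (EE m)) : EE m → ℝ) (x, z) ≤ 1 →
      ((DD ψ : An (EE m)) : EE m → ℝ) (x, z) ^ N ≤
        (K : ℝ → ℝ) z * ((evP P : An (EE m)) : EE m → ℝ) (x, z) := by
  choose κ hκ0 hκ using fun n : ℕ => exists_lower ψ N F hlow P hP (n + 1)
  obtain ⟨K, hK⟩ := exists_dom (fun z : ℝ => z ^ 2) (fun z _ => analyticAt_id.pow 2)
    (fun z => sq_nonneg z) (fun z => κ ⌈z ^ 2⌉₊) (fun n => by
      refine ((finite_Iic n).image κ).bddAbove.mono ?_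
      rintro _ ⟨z, hz, rfl⟩
      exact ⟨_, Nat.ceil_le.mpr hz, rfl⟩)
  refine ⟨K, fun z => (hK z).1, fun z x hx => ?_⟩
  have h1 : |z| ≤ (⌈z ^ 2⌉₊ : ℝ) + 1 := by
    have h2 : z ^ 2 ≤ (⌈z ^ 2⌉₊ : ℝ) := Nat.le_ceil _
    have h3 : |z| ≤ z ^ 2 + 1 := by
      have := sq_abs z
      nlinarith [sq_nonneg (|z| - 1), abs_nonneg z]
    linarith
  have h4 := (hK z).2
  have hD := DD_nonneg ψ (x, z)
  have h5 := hκ ⌈z ^ 2⌉₊ z h1 x ((mul_le_mul_of_nonneg_right h4 hD).trans hx)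
  refine h5.trans (mul_le_mul_of_nonneg_right h4 ?_)
  have h6 : 0 ≤ κ ⌈z ^ 2⌉₊ * ((evP P : An (EE m)) : EE m → ℝ) (x, z) := (pow_nonneg hD N).trans h5
  exact nonneg_of_mul_nonneg_right h6 (hκ0 _)

/-- positivity away from the graphs -/
theorem pos_of_far (ψ : Fin k → Fin m → An ℝ) (F : An (EE m)) (h0 : ∀ p, 0 ≤ (F : EE m → ℝ) p)
    (hpos : ∀ p, 0 < ((DD ψ : An (EE m)) : EE m → ℝ) p → 0 < (F : EE m → ℝ) p)
    {N : RC.Model} (φ : An (EE m) →+* N.F) (ε : An (EE m)) (hε : ∀ p, 0 < (ε : EE m → ℝ) p)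
    (hfar : φ ε ≤ φ (DD ψ)) : 0 < φ F := by
  classical
  let ρ : EE m → ℝ := fun p => ∑ i, p.1 i ^ 2 + p.2 ^ 2
  have hρ : AnalyticOnNhd ℝ ρ univ := by
    intro p _
    refine AnalyticAt.add (Finset.analyticAt_fun_sum _ fun i _ => ?_) (analyticAt_snd.pow 2)
    exact ((co i).an p trivial).pow 2
  have hρ0 : ∀ p, 0 ≤ ρ p := fun p =>
    add_nonneg (Finset.sum_nonneg fun i _ => sq_nonneg _) (sq_nonneg _)
  have hρc : Continuous ρ := by
    have := hρ.continuousOn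
    rwa [continuousOn_univ] at this
  let κ : EE m → ℝ := fun p => if (ε : EE m → ℝ) p ≤ ((DD ψ : An (EE m)) : EE m → ℝ) p then
    (1 + ((DD ψ : An (EE m)) : EE m → ℝ) p) / (F : EE m → ℝ) p else 0
  have hκ : ∀ n : ℕ, BddAbove (κ '' {p | ρ p ≤ n}) := by
    intro n
    have hcomp : IsCompact ({p : EE m | ρ p ≤ n} ∩
        {p | (ε : EE m → ℝ) p ≤ ((DD ψ : An (EE m)) : EE m → ℝ) p}) := by
      refine IsCompact.inter_right ?_ (isClosed_le ε.cont (DD ψ).cont)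
      refine Metric.isCompact_of_isClosed_isBounded (isClosed_le hρc continuous_const) ?_
      refine (Metric.isBounded_closedBall (x := (0 : EE m)) (r := (n : ℝ) + 1)).subset fun p hp => ?_
      have hp' : ρ p ≤ n := hp
      have hb : ∀ t : ℝ, t ^ 2 ≤ ρ p → |t| ≤ (n : ℝ) + 1 := by
        intro t ht
        have := sq_abs t
        nlinarith [sq_nonneg (|t| - 1), abs_nonneg t]
      rw [mem_closedBall_zero_iff, Prod.norm_def, max_le_iff]
      constructor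
      · rw [pi_norm_le_iff_of_nonneg (by positivity)]
        intro i
        refine hb _ ?_
        have h1 : p.1 i ^ 2 ≤ ∑ i, p.1 i ^ 2 :=
          Finset.single_le_sum (f := fun i => p.1 i ^ 2) (fun i _ => sq_nonneg _) (Finset.mem_univ i)
        have h2 := sq_nonneg p.2
        simp only [ρ]
        linarith
      · refine hb _ ?_
        have h1 : 0 ≤ ∑ i, p.1 i ^ 2 := Finset.sum_nonneg fun i _ => sq_nonneg _
        simp only [ρ]
        linarith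
    obtain ⟨b, hb⟩ := hcomp.exists_bound_of_continuousOn (f := fun p =>
      (1 + ((DD ψ : An (EE m)) : EE m → ℝ) p) / (F : EE m → ℝ) p) (by
        refine ContinuousOn.div (continuous_const.add (DD ψ).cont).continuousOn
          F.cont.continuousOn fun p hp => ?_
        exact (hpos p ((hε p).trans_le hp.2)).ne')
    refine ⟨|b|, ?_⟩
    rintro _ ⟨p, hp, rfl⟩
    simp only [κ]
    split_ifs with h
    · exact (le_abs_self _).trans ((hb p ⟨hp, h⟩).trans (le_abs_self b))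
    · exact abs_nonneg b
  obtain ⟨K, hK⟩ := exists_dom ρ hρ hρ0 κ hκ
  have hKpos : ∀ p, 0 < (K : EE m → ℝ) p := fun p => one_pos.trans_le (hK p).1
  let σ : An (EE m) := ⟨fun p => ((K : EE m → ℝ) p)⁻¹, fun p _ => (K.an p trivial).inv (hKpos p).ne'⟩
  have hσ : ∀ p, 0 < (σ : EE m → ℝ) p := fun p => inv_pos.mpr (hKpos p)
  have hσ0 : ∀ p, 0 < ((F - σ * (DD ψ - ε) : An (EE m)) : EE m → ℝ) p := by
    intro p
    simp only [An.coe_sub, An.coe_mul]
    rcases le_or_gt ((ε : EE m → ℝ) p) (((DD ψ : An (EE m)) : EE m → ℝ) p) with h | h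
    · have h1 := (hK p).2
      simp only [κ, if_pos h] at h1
      have hFp := hpos p ((hε p).trans_le h)
      rw [div_le_iff₀ hFp] at h1
      have h2 : (σ : EE m → ℝ) p * (K : EE m → ℝ) p = 1 := inv_mul_cancel₀ (hKpos p).ne'
      have h3 : (σ : EE m → ℝ) p * (1 + ((DD ψ : An (EE m)) : EE m → ℝ) p) ≤ (F : EE m → ℝ) p := by
        calc _ ≤ (σ : EE m → ℝ) p * ((K : EE m → ℝ) p * (F : EE m → ℝ) p) :=
              mul_le_mul_of_nonneg_left h1 (hσ p).le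
          _ = (F : EE m → ℝ) p := by rw [← mul_assoc, h2, one_mul]
      have h4 : 0 < (σ : EE m → ℝ) p * (1 + (ε : EE m → ℝ) p) :=
        mul_pos (hσ p) (by linarith [hε p])
      nlinarith
    · have h1 := h0 p
      have h2 : 0 < (σ : EE m → ℝ) p * ((ε : EE m → ℝ) p - ((DD ψ : An (EE m)) : EE m → ℝ) p) :=
        mul_pos (hσ p) (by linarith)
      nlinarith
  have h1 : 0 < φ (F - σ * (DD ψ - ε)) := pos_of_pos hσ0
  have h2 : 0 < φ σ := pos_of_pos hσ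
  rw [map_sub, map_mul, map_sub] at h1
  have h3 : 0 ≤ φ σ * (φ (DD ψ) - φ ε) := mul_nonneg h2.le (by linarith)
  linarith

/-- the elementary predicate -/
theorem graph_sap (k m N : ℕ) (A : Finset (Fin m →₀ ℕ)) :
    RC.SAP (fun v : RC.Pt (A ⊕ ((Fin k × Fin m) ⊕ Unit)) => ∀ x : Fin m → v.1.F,
      v.2 (Sum.inr (Sum.inr ())) * ∏ j : Fin k, ∑ i, (x i - v.2 (Sum.inr (Sum.inl (j, i)))) ^ 2 ≤ 1 →
      (∏ j : Fin k, ∑ i, (x i - v.2 (Sum.inr (Sum.inl (j, i)))) ^ 2) ^ N ≤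
        v.2 (Sum.inr (Sum.inr ())) * RC.val A (fun α => v.2 (Sum.inl α)) x) := by
  have hD : RC.PF (fun u : RC.Pt ((A ⊕ ((Fin k × Fin m) ⊕ Unit)) ⊕ Fin m) =>
      ∏ j : Fin k, ∑ i, (u.2 (Sum.inr i) - u.2 (Sum.inl (Sum.inr (Sum.inl (j, i))))) ^ 2) :=
    RC.PF.prodM _ fun j _ => RC.PF.sumM _ fun i _ => ((RC.PF.coordM _).subM (RC.PF.coordM _)).powM 2
  have h1 : RC.SAP (fun u : RC.Pt ((A ⊕ ((Fin k × Fin m) ⊕ Unit)) ⊕ Fin m) =>
      u.2 (Sum.inl (Sum.inr (Sum.inr ()))) *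
        ∏ j : Fin k, ∑ i, (u.2 (Sum.inr i) - u.2 (Sum.inl (Sum.inr (Sum.inl (j, i))))) ^ 2 ≤ 1 →
      (∏ j : Fin k, ∑ i, (u.2 (Sum.inr i) - u.2 (Sum.inl (Sum.inr (Sum.inl (j, i))))) ^ 2) ^ N ≤
        u.2 (Sum.inl (Sum.inr (Sum.inr ()))) *
          RC.val A (fun α => u.2 (Sum.inl (Sum.inl α))) (fun i => u.2 (Sum.inr i))) := by
    refine RC.SAP.impM (RC.SAP.leM ((RC.PF.coordM _).mulM hD) RC.PF.oneM)
      (RC.SAP.leM (hD.powM N) ((RC.PF.coordM _).mulM ?_))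
    exact RC.PF.sumM _ fun α _ => (RC.PF.coordM _).mulM (RC.PF.prodM _ fun i _ => (RC.PF.coordM _).powM _)
  exact RC.SAP.forall_blockM h1

/-- The main theorem on homomorphisms. -/
theorem graph_pos (ψ : Fin k → Fin m → An ℝ) (N : ℕ) (F : An (EE m))
    (hlow : ∀ p : EE m, ∃ c : ℝ, 0 < c ∧ ∀ᶠ q in 𝓝 p,
      c * ((DD ψ : An (EE m)) : EE m → ℝ) q ^ N ≤ (F : EE m → ℝ) q)
    {M : RC.Model} (φ : An (EE m) →+* M.F) (hφ : Function.Injective (φ.comp io)) : 0 ≤ φ F := by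
  classical
  by_contra hneg
  push Not at hneg
  have hpos : ∀ p, 0 < ((DD ψ : An (EE m)) : EE m → ℝ) p → 0 < (F : EE m → ℝ) p := by
    intro p hp
    obtain ⟨c, hc, h⟩ := hlow p
    exact (mul_pos hc (pow_pos hp N)).trans_le h.self_of_nhds
  have h0 : ∀ p, 0 ≤ (F : EE m → ℝ) p := by
    intro p
    obtain ⟨c, hc, h⟩ := hlow p
    exact (mul_nonneg hc.le (pow_nonneg (DD_nonneg ψ p) N)).trans h.self_of_nhds
  have hnear : ∀ ε : An (EE m), (∀ p, 0 < (ε : EE m → ℝ) p) → φ (DD ψ) < φ ε := by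
    intro ε hε
    by_contra hcon
    push Not at hcon
    exact absurd (pos_of_far ψ F h0 hpos φ ε hε hcon) (not_lt.mpr hneg.le)
  obtain ⟨P, hP⟩ := expand ψ (2 * N + 1) F
  obtain ⟨K, hK1, hK⟩ := exists_lower_an ψ N F hlow P hP
  obtain ⟨B, hB, hBφ⟩ := hP
  -- units
  have hinv : ∀ U : An (EE m), (∀ p, 1 ≤ (U : EE m → ℝ) p) → φ U * φ (DD ψ) < 1 := by
    intro U hU
    have hUpos : ∀ p, 0 < (U : EE m → ℝ) p := fun p => one_pos.trans_le (hU p)
    let V : An (EE m) := ⟨fun p => ((U : EE m → ℝ) p)⁻¹, fun p _ => (U.an p trivial).inv (hUpos p).ne'⟩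
    have h1 := hnear V (fun p => inv_pos.mpr (hUpos p))
    have h2 : U * V = 1 := An.ext fun p => mul_inv_cancel₀ (hUpos p).ne'
    have h3 : φ U * φ V = 1 := by rw [← map_mul, h2, map_one]
    rw [← h3]
    exact mul_lt_mul_of_pos_left h1 (pos_of_pos hUpos)
  -- transfer
  have hreal : ∀ (z : ℝ) (x : Fin m → ℝ),
      (K : ℝ → ℝ) z * ∏ j : Fin k, ∑ i, (x i - (ψ j i : ℝ → ℝ) z) ^ 2 ≤ 1 →
      (∏ j : Fin k, ∑ i, (x i - (ψ j i : ℝ → ℝ) z) ^ 2) ^ N ≤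
        (K : ℝ → ℝ) z * RC.val P.support (fun α => ((P.coeff α.1 : An ℝ) : ℝ → ℝ) z) x := by
    intro z x hx
    have h1 := hK z x
    rw [DD_apply, ← evp_apply (x, z) (evP P), phi_evP] at h1
    exact h1 hx
  have htr := transfer (φ.comp io) hφ (graph_sap k m N P.support)
    (Sum.elim (fun α => P.coeff α.1) (Sum.elim (fun ji => ψ ji.1 ji.2) (fun _ => K)))
    (fun z x hx => hreal z x hx) (fun i => φ (co i))
  have hDDφ : φ (DD ψ) = ∏ j : Fin k, ∑ i, (φ (co i) - φ (io (ψ j i))) ^ 2 := by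
    rw [DD, map_prod]
    refine Finset.prod_congr rfl fun j _ => ?_
    rw [map_sum]
    refine Finset.sum_congr rfl fun i _ => ?_
    rw [map_pow, map_sub]
  have hstar : φ (DD ψ) ^ N ≤ φ (io K) * φ (evP P) := by
    rw [phi_evP, hDDφ]
    refine htr ?_
    have h1 := (hinv (io K) (fun p => hK1 p.2)).le
    rw [hDDφ] at h1
    exact h1
  -- conclusion
  have hD0 := phi_DD_nonneg ψ φ
  have hw := hBφ M φ hD0
  set D := φ (DD ψ) with hD
  set κ := φ (io K) with hκ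
  have hκ0 : 0 < κ := phi_pos_of_one_le (B := io K) (fun p => hK1 p.2) φ
  set w := φ (F - evP P) with hwdef
  have hFw : φ F = φ (evP P) + w := by rw [hwdef, map_sub]; ring
  have h1 : D ^ N < κ * (-w) := by
    have h2 : φ (evP P) < -w := by linarith
    exact hstar.trans_lt (mul_lt_mul_of_pos_left h2 hκ0)
  have hDN : 0 ≤ D ^ N := pow_nonneg hD0 N
  have h2 : (D ^ N) ^ 2 < (κ * (-w)) ^ 2 := by
    exact pow_lt_pow_left₀ h1 hDN two_ne_zero
  have h3 : (κ * (-w)) ^ 2 ≤ (D ^ N) ^ 2 * (κ ^ 2 * φ B * D) := by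
    calc (κ * (-w)) ^ 2 = κ ^ 2 * w ^ 2 := by ring
      _ ≤ κ ^ 2 * (D ^ (2 * N + 1) * φ B) := mul_le_mul_of_nonneg_left hw (sq_nonneg _)
      _ = (D ^ N) ^ 2 * (κ ^ 2 * φ B * D) := by ring
  have h4 : κ ^ 2 * φ B * D ≤ 1 := by
    have h5 := hinv (io K ^ 2 * B) (fun p => by
      simp only [An.coe_mul, An.coe_pow, io_apply]
      have h6 := hK1 p.2
      have h7 := hB p
      nlinarith [mul_le_mul h6 h6 zero_le_one (by linarith)])
    rw [map_mul, map_pow] at h5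
    exact h5.le
  have h5 : (D ^ N) ^ 2 * (κ ^ 2 * φ B * D) ≤ (D ^ N) ^ 2 * 1 :=
    mul_le_mul_of_nonneg_left h4 (sq_nonneg _)
  linarith

end Run7.h470
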