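import Pool.Agent.Run7.h470.Base

/-!
Division of a real analytic function by a coordinate.
-/

set_option autoImplicit false

namespace Run7.h470

open Set Filter Topology

variable {F : Type} [NormedAddCommGroup F] [NormedSpace ℝ F]

/-- the projection `(y,t) ↦ (y,0)` -/
noncomputable def P0 : (F × ℝ) →L[ℝ] (F × ℝ) := (ContinuousLinearMap.fst ℝ F ℝ).prod 0

theorem P0_apply (v : F × ℝ) : P0 v = (v.1, 0) := rfl

theorem norm_P0_le (v : F × ℝ) : ‖P0 v‖ ≤ ‖v‖ := by
  rw [P0_apply, Prod.norm_def, Prod.norm_def]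
  simp

/-- the power series of the quotient -/
noncomputable def qser (p : FormalMultilinearSeries ℝ (F × ℝ) ℝ) :
    FormalMultilinearSeries ℝ (F × ℝ) ℝ :=
  fun n => ∑ k : Fin (n + 1), ((p (n + 1)).curryMid k ((0, 1) : F × ℝ)).compContinuousLinearMap
    (fun i : Fin n => if (i : ℕ) < k then P0 else ContinuousLinearMap.id ℝ (F × ℝ))

theorem qser_eq (p : FormalMultilinearSeries ℝ (F × ℝ) ℝ) (n : ℕ) (m : Fin n → F × ℝ) :
    qser p n m = ∑ k : Fin (n + 1), p (n + 1) (k.insertNth ((0, 1) : F × ℝ)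
      (fun i : Fin n => if (i : ℕ) < k then P0 (m i) else m i)) := by
  unfold qser
  rw [sum_apply]
  refine Finset.sum_congr rfl fun k _ => ?_
  rw [ContinuousMultilinearMap.compContinuousLinearMap_apply,
    ContinuousMultilinearMap.curryMid_apply]
  congr 2
  funext i
  split_ifs <;> rfl

theorem qser_apply (p : FormalMultilinearSeries ℝ (F × ℝ) ℝ) (n : ℕ) (v : F × ℝ) :
    v.2 * qser p n (fun _ => v) = p (n + 1) (fun _ => v) - p (n + 1) (fun _ => P0 v) := by
  classical
  rw [qser_eq]
  let w : ℕ → Fin (n + 1) → F × ℝ := fun k i => if (i : ℕ) < k then P0 v else v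
  have h1 : ∀ k : Fin (n + 1), v.2 * p (n + 1) (k.insertNth ((0, 1) : F × ℝ)
      (fun i : Fin n => if (i : ℕ) < k then P0 v else v)) =
      p (n + 1) (w k) - p (n + 1) (w ((k : ℕ) + 1)) := by
    intro k
    have h2 : (k.insertNth ((0, 1) : F × ℝ)
      (fun i : Fin n => if (i : ℕ) < k then P0 v else v) : Fin (n + 1) → F × ℝ) =
        Function.update (w k) k ((0, 1) : F × ℝ) := by
      refine (Fin.insertNth_eq_iff).mpr ⟨by simp, ?_⟩
      funext i
      simp only [Fin.removeNth]
      rw [Function.update_of_ne (Fin.succAbove_ne k i)]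
      simp only [w]
      have h3 : ((k.succAbove i : Fin (n + 1)) : ℕ) < k ↔ (i : ℕ) < k := by
        rcases lt_or_ge (i.castSucc) k with h | h
        · rw [Fin.succAbove_of_castSucc_lt _ _ h]
          simp
        · rw [Fin.succAbove_of_le_castSucc _ _ h]
          have h4 : (k : ℕ) ≤ i := h
          simp only [Fin.val_succ]
          omega
      simp only [h3]
    have h4 : w k = Function.update (w k) k v := by
      funext i
      by_cases hi : i = k
      · subst hi
        simp [w]
      · rw [Function.update_of_ne hi]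
    have h5 : w ((k : ℕ) + 1) = Function.update (w k) k (P0 v) := by
      funext i
      by_cases hi : i = k
      · subst hi
        simp [w]
      · rw [Function.update_of_ne hi]
        simp only [w]
        have h6 : (i : ℕ) ≠ k := fun h => hi (Fin.ext h)
        have h7 : (i : ℕ) < (k : ℕ) + 1 ↔ (i : ℕ) < k := by omega
        simp only [h7]
    have h8 : v - P0 v = v.2 • ((0, 1) : F × ℝ) := by
      rw [P0_apply]
      ext <;> simp
    have h9 : p (n + 1) (w k) - p (n + 1) (w ((k : ℕ) + 1)) =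
        p (n + 1) (Function.update (w k) k (v - P0 v)) := by
      rw [ContinuousMultilinearMap.map_update_sub, ← h4, ← h5]
    rw [h9, h8, ContinuousMultilinearMap.map_update_smul, h2, smul_eq_mul]
  rw [Finset.mul_sum, Finset.sum_congr rfl (fun k _ => h1 k),
    Fin.sum_univ_eq_sum_range (fun k => p (n + 1) (w k) - p (n + 1) (w (k + 1))) (n + 1),
    Finset.sum_range_sub']
  congr 2
  · funext i
    simp only [w]
    rw [if_pos i.2]

theorem qser_norm (p : FormalMultilinearSeries ℝ (F × ℝ) ℝ) (n : ℕ) :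
    ‖qser p n‖ ≤ (n + 1) * ‖p (n + 1)‖ := by
  refine ContinuousMultilinearMap.opNorm_le_bound (by positivity) fun m => ?_
  rw [qser_eq]
  have h1 : ∀ k : Fin (n + 1), ‖p (n + 1) (k.insertNth ((0, 1) : F × ℝ)
      (fun i : Fin n => if (i : ℕ) < k then P0 (m i) else m i))‖ ≤ ‖p (n + 1)‖ * ∏ i, ‖m i‖ := by
    intro k
    refine (ContinuousMultilinearMap.le_opNorm _ _).trans ?_
    refine mul_le_mul_of_nonneg_left ?_ (norm_nonneg _)
    rw [Fin.prod_univ_succAbove _ k]
    simp only [Fin.insertNth_apply_same, Fin.insertNth_apply_succAbove]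
    have h2 : ‖((0, 1) : F × ℝ)‖ = 1 := by
      rw [Prod.norm_def]
      simp
    rw [h2, one_mul]
    refine Finset.prod_le_prod (fun i _ => norm_nonneg _) fun i _ => ?_
    split_ifs
    · exact norm_P0_le _
    · exact le_rfl
  refine (norm_sum_le _ _).trans ((Finset.sum_le_sum fun k _ => h1 k).trans ?_)
  rw [Finset.sum_const, Finset.card_univ, Fintype.card_fin, nsmul_eq_mul]
  push_cast
  rw [mul_assoc]

theorem qser_radius (p : FormalMultilinearSeries ℝ (F × ℝ) ℝ) (hp : 0 < p.radius) :
    0 < (qser p).radius := by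
  obtain ⟨C, r, hC, hr, hb⟩ := p.le_mul_pow_of_radius_pos hp
  obtain ⟨r', hr'⟩ : ∃ r' : NNReal, (r' : ℝ) = 1 / (2 * r) := ⟨⟨1 / (2 * r), by positivity⟩, rfl⟩
  have h1 : (r' : ENNReal) ≤ (qser p).radius := by
    refine (qser p).le_radius_of_bound (C * r) fun n => ?_
    have h2 : ((n : ℝ) + 1) ≤ 2 ^ n := by
      have : n + 1 ≤ 2 ^ n := Nat.lt_two_pow_self
      exact_mod_cast this
    have h3 : ‖qser p n‖ ≤ 2 ^ n * (C * r ^ (n + 1)) := by
      refine (qser_norm p n).trans ?_
      exact mul_le_mul h2 (hb _) (norm_nonneg _) (by positivity)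
    rw [hr']
    calc ‖qser p n‖ * (1 / (2 * r)) ^ n ≤ 2 ^ n * (C * r ^ (n + 1)) * (1 / (2 * r)) ^ n := by
          gcongr
      _ = C * r := by
          rw [one_div, inv_pow, mul_pow]
          field_simp
          ring
  refine lt_of_lt_of_le ?_ h1
  rw [ENNReal.coe_pos, ← NNReal.coe_pos, hr']
  positivity

/-- Hadamard's lemma, local version -/
theorem hadamard_local {G : F × ℝ → ℝ} {y₀ : F} (hG : AnalyticAt ℝ G (y₀, 0))
    (h0 : ∀ᶠ y in 𝓝 y₀, G (y, 0) = 0) :
    ∃ H : F × ℝ → ℝ, AnalyticAt ℝ H (y₀, 0) ∧ ∀ᶠ v in 𝓝 (y₀, (0 : ℝ)), G v = v.2 * H v := by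
  obtain ⟨p, r, hp⟩ := hG
  have hq := (qser p).hasFPowerSeriesOnBall (qser_radius p (hp.r_pos.trans_le hp.r_le))
  -- the restriction to the hyperplane
  let inl : F →L[ℝ] F × ℝ := ContinuousLinearMap.inl ℝ F ℝ
  have hzero : ∀ n (y : F), p n (fun _ => (y, 0)) = 0 := by
    have h1 : HasFPowerSeriesAt (G ∘ inl) (p.compContinuousLinearMap inl) y₀ :=
      HasFPowerSeriesAt.compContinuousLinearMap (x := y₀) (u := inl) ⟨r, hp⟩
    have h2 : HasFPowerSeriesAt (0 : F → ℝ) (p.compContinuousLinearMap inl) y₀ :=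
      h1.congr (by filter_upwards [h0] with y hy using hy)
    intro n y
    have h3 := h2.apply_eq_zero n y
    rw [FormalMultilinearSeries.compContinuousLinearMap_apply] at h3
    exact h3
  refine ⟨fun v => (qser p).sum (v - (y₀, 0)), ?_, ?_⟩
  · have h1 : AnalyticAt ℝ (qser p).sum ((y₀, (0 : ℝ)) - (y₀, 0)) := by
      rw [sub_self]
      exact hq.analyticAt
    exact h1.comp_of_eq (f := fun v : F × ℝ => v - (y₀, 0)) (by fun_prop) rfl
  · have h1 : ∀ᶠ v in 𝓝 (y₀, (0 : ℝ)), v ∈ Metric.eball (y₀, (0 : ℝ)) r :=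
      Metric.eball_mem_nhds _ hp.r_pos
    have h2 : ∀ᶠ v in 𝓝 (y₀, (0 : ℝ)), v - (y₀, 0) ∈ Metric.eball (0 : F × ℝ) (qser p).radius := by
      have h3 : Tendsto (fun v : F × ℝ => v - (y₀, 0)) (𝓝 (y₀, (0 : ℝ))) (𝓝 0) := by
        have : ContinuousAt (fun v : F × ℝ => v - (y₀, 0)) (y₀, 0) := by fun_prop
        simpa [ContinuousAt] using this
      exact h3 (Metric.eball_mem_nhds _ hq.r_pos)
    filter_upwards [h1, h2] with v hv1 hv2
    set w := v - (y₀, 0) with hw
    have hvw : (y₀, (0 : ℝ)) + w = v := by rw [hw]; abel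
    have hw2 : w.2 = v.2 := by rw [hw]; simp
    have hw1 : w ∈ Metric.eball (0 : F × ℝ) r := by
      rw [hw]
      simpa [edist_eq_enorm_sub] using hv1
    have h3 : HasSum (fun n => p n fun _ => w) (G v) := by
      have := hp.hasSum hw1
      rwa [hvw] at this
    have h4 : HasSum (fun n => qser p n fun _ => w) ((qser p).sum w) := by
      have := hq.hasSum hv2
      rwa [zero_add] at this
    have h5 : HasSum (fun n => p (n + 1) fun _ => w) (v.2 * (qser p).sum w) := by
      have h6 := h4.mul_left v.2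
      refine h6.congr_fun ?_ |> fun h => h
      intro n
      rw [← hw2, qser_apply, P0_apply, hzero, sub_zero]
    have h7 : HasSum (fun n => p n fun _ => w) (v.2 * (qser p).sum w) := by
      rw [← hasSum_nat_add_iff' 1]
      have h8 : p 0 (fun _ => w) = 0 := by
        have h9 := hzero 0 w.1
        have h10 : (fun _ : Fin 0 => w) = fun _ => (w.1, 0) := by
          funext i
          exact i.elim0
        rw [h10, h9]
      simp only [Finset.range_one, Finset.sum_singleton, h8, sub_zero]
      exact h5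
    exact h3.unique h7

/-- Hadamard's lemma, global version -/
theorem hadamard {G : F × ℝ → ℝ} (hG : AnalyticOnNhd ℝ G univ) (h0 : ∀ y, G (y, 0) = 0) :
    ∃ H : F × ℝ → ℝ, AnalyticOnNhd ℝ H univ ∧ ∀ v, G v = v.2 * H v := by
  classical
  let H : F × ℝ → ℝ := fun v => if v.2 = 0 then deriv (fun t => G (v.1, t)) 0 else G v / v.2
  refine ⟨H, fun v _ => ?_, fun v => ?_⟩
  · by_cases hv : v.2 = 0
    · obtain ⟨y, t⟩ := v
      simp only at hv
      subst hv
      obtain ⟨H', hH', hGH⟩ := hadamard_local (hG (y, 0) trivial) (Eventually.of_forall h0)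
      refine hH'.congr ?_
      have h1 : ∀ᶠ w in 𝓝 (y, (0 : ℝ)), AnalyticAt ℝ H' w := hH'.eventually_analyticAt
      filter_upwards [hGH.eventually_nhds, h1] with w hw hw'
      obtain ⟨y', t'⟩ := w
      by_cases ht : t' = 0
      · subst ht
        simp only [H, if_true]
        have h2 : (fun t => G (y', t)) =ᶠ[𝓝 0] fun t => t * H' (y', t) := by
          have h3 : Tendsto (fun t : ℝ => (y', t)) (𝓝 0) (𝓝 (y', (0 : ℝ))) :=
            (Continuous.prodMk_right y').continuousAt
          exact h3.eventually hw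
        rw [h2.deriv_eq]
        have h4 : DifferentiableAt ℝ (fun t => H' (y', t)) 0 := by
          have h5 : AnalyticAt ℝ (fun t => H' (y', t)) 0 :=
            AnalyticAt.comp_of_eq hw' (analyticAt_const.prod analyticAt_id) rfl
          exact h5.differentiableAt
        rw [deriv_fun_mul differentiableAt_fun_id h4]
        simp
      · simp only [H, if_neg ht]
        have h5 := hw.self_of_nhds
        simp only at h5
        rw [h5]
        field_simp
    · have h1 : AnalyticAt ℝ (fun w : F × ℝ => G w / w.2) v :=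
        (hG v trivial).div analyticAt_snd hv
      refine h1.congr ?_
      have h2 : ∀ᶠ w in 𝓝 v, w.2 ≠ 0 := continuousAt_snd.eventually_ne hv
      filter_upwards [h2] with w hw
      simp only [H, if_neg hw]
  · by_cases hv : v.2 = 0
    · obtain ⟨y, t⟩ := v
      simp only at hv
      subst hv
      simp [h0]
    · simp only [H, if_neg hv]
      field_simp

end Run7.h470
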