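import Pool.Agent.Run7.h470.Theta

/-!
Orderings of the field of meromorphic functions on the line: every finite system of strict
inequalities satisfied in an ordering is satisfied at a real point.
-/

set_option autoImplicit false

namespace Run7.h470

open Set Filter Topology
open Pool.Agent.Helper716_Lang

/-- the order of vanishing -/
noncomputable def nord (p : An ℝ) (x : ℝ) : ℕ := analyticOrderNatAt (p : ℝ → ℝ) x

theorem order_ne_top {p : An ℝ} (hp : p ≠ 0) (x : ℝ) : analyticOrderAt (p : ℝ → ℝ) x ≠ ⊤ := by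
  intro h
  rw [analyticOrderAt_eq_top] at h
  exact hp (An.eq_of_eventuallyEq (f := p) (g := 0) h)

theorem nord_eq {p : An ℝ} (hp : p ≠ 0) (x : ℝ) : (nord p x : ℕ∞) = analyticOrderAt (p : ℝ → ℝ) x :=
  Nat.cast_analyticOrderNatAt (order_ne_top hp x)

theorem nord_local {p : An ℝ} (hp : p ≠ 0) (x : ℝ) : ∃ g : ℝ → ℝ, AnalyticAt ℝ g x ∧ g x ≠ 0 ∧
    ∀ᶠ z in 𝓝 x, (p : ℝ → ℝ) z = (z - x) ^ nord p x * g z := by
  have h := ((p.an x trivial).analyticOrderAt_eq_natCast (n := nord p x)).mp (nord_eq hp x).symm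
  exact h

theorem nord_eq_zero {p : An ℝ} (hp : p ≠ 0) (x : ℝ) : nord p x = 0 ↔ (p : ℝ → ℝ) x ≠ 0 := by
  rw [← (p.an x trivial).analyticOrderAt_eq_zero, ← nord_eq hp x]
  norm_cast

theorem nord_mul {p q : An ℝ} (hp : p ≠ 0) (hq : q ≠ 0) (x : ℝ) :
    nord (p * q) x = nord p x + nord q x := by
  have h1 := nord_eq (mul_ne_zero hp hq) x
  have h2 : analyticOrderAt ((p * q : An ℝ) : ℝ → ℝ) x = analyticOrderAt ((p : ℝ → ℝ) * (q : ℝ → ℝ)) x := rfl
  rw [h2, analyticOrderAt_mul (p.an x trivial) (q.an x trivial), ← nord_eq hp, ← nord_eq hq] at h1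
  exact_mod_cast h1

theorem nord_neg {p : An ℝ} (x : ℝ) : nord (-p) x = nord p x := by
  unfold nord analyticOrderNatAt
  congr 1
  exact analyticOrderAt_neg

/-- zeros are locally finite -/
theorem finite_zeros {p : An ℝ} (hp : p ≠ 0) (R : ℝ) : {x | (p : ℝ → ℝ) x = 0 ∧ |x| ≤ R}.Finite := by
  by_contra hcon
  have hinf : {x | (p : ℝ → ℝ) x = 0 ∧ |x| ≤ R}.Infinite := hcon
  have hsub : {x | (p : ℝ → ℝ) x = 0 ∧ |x| ≤ R} ⊆ Icc (-R) R := fun x hx => abs_le.mp hx.2
  obtain ⟨x, _, hx⟩ := hinf.exists_accPt_of_subset_isCompact isCompact_Icc hsub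
  rw [accPt_iff_frequently] at hx
  apply hp
  refine An.eq_of_eventuallyEq (x := x) ?_
  have h1 : ∃ᶠ z in 𝓝[≠] x, (p : ℝ → ℝ) z = 0 := by
    rw [frequently_nhdsWithin_iff]
    refine hx.mono fun y hy => ⟨hy.2.1, hy.1⟩
  have h2 := ((p.an x trivial).frequently_zero_iff_eventually_zero).mp h1
  filter_upwards [h2] with y hy
  simpa using hy

/-- Prescribed orders of vanishing. -/
theorem exists_theta (k : ℝ → ℕ) (hk : ∀ R : ℝ, {x | k x ≠ 0 ∧ |x| ≤ R}.Finite) :
    ∃ θ : An ℝ, θ ≠ 0 ∧ ∀ x, nord θ x = k x := by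
  classical
  let S := {x : ℝ // k x ≠ 0}
  have hcount : Countable S := by
    have h1 : {x : ℝ | k x ≠ 0} = ⋃ n : ℕ, {x | k x ≠ 0 ∧ |x| ≤ n} := by
      ext x
      simp only [mem_ofPred_eq, mem_iUnion]
      constructor
      · intro h
        obtain ⟨n, hn⟩ := exists_nat_ge |x|
        exact ⟨n, h, hn⟩
      · rintro ⟨n, h, _⟩; exact h
    have h2 : {x : ℝ | k x ≠ 0}.Countable := by
      rw [h1]
      exact countable_iUnion fun n => (hk n).countable
    exact h2.to_subtype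
  let J := Σ s : S, Fin (k s)
  have hJ : Countable J := inferInstance
  obtain ⟨e, he⟩ := hJ.exists_injective_nat
  let a : J → ℝ := fun j => j.1.1
  have ha : ∀ R : ℝ, {j | |a j| ≤ R}.Finite := by
    intro R
    have h1 : {s : S | |s.1| ≤ R}.Finite := by
      refine Finite.of_finite_image (f := Subtype.val) ((hk R).subset ?_) Subtype.val_injective.injOn
      rintro _ ⟨s, hs, rfl⟩
      exact ⟨s.2, hs⟩
    refine (h1.biUnion (t := fun s => Set.range (fun l : Fin (k s) => (⟨s, l⟩ : J))) fun s _ =>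
      finite_range _).subset ?_
    rintro ⟨s, l⟩ hj
    simp only [mem_iUnion]
    exact ⟨s, hj, l, rfl⟩
  let θ : An ℝ := ⟨Pr a e, analytic_Pr he ha⟩
  have hord : ∀ x, analyticOrderAt (θ : ℝ → ℝ) x = (k x : ℕ∞) := by
    intro x
    have h1 : analyticOrderAt (θ : ℝ → ℝ) x = _ := order_Pr he ha x
    rw [h1]
    congr 1
    by_cases hx : k x = 0
    · rw [hx]
      have : {j | a j = x} = ∅ := by
        ext ⟨s, l⟩
        simp only [mem_ofPred_eq, mem_empty_iff_false, iff_false]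
        intro h
        exact s.2 (by rw [show s.1 = x from h]; exact hx)
      rw [this, ncard_empty]
    · have : {j | a j = x} = Set.range (fun l : Fin (k x) => (⟨⟨x, hx⟩, l⟩ : J)) := by
        ext ⟨s, l⟩
        simp only [mem_ofPred_eq, mem_range]
        constructor
        · intro h
          obtain ⟨s, hs⟩ := s
          have h2 : s = x := h
          subst h2
          exact ⟨l, rfl⟩
        · rintro ⟨l', hl'⟩
          have := congrArg a hl'
          exact this.symm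
      rw [this, ← image_univ, ncard_image_of_injective, ncard_univ, Nat.card_fin]
      intro l l' hl
      exact eq_of_heq (Sigma.mk.inj_iff.mp hl).2
  have hθ : θ ≠ 0 := by
    intro h0
    have h1 := hord 0
    rw [h0] at h1
    have h2 : analyticOrderAt ((0 : An ℝ) : ℝ → ℝ) (0 : ℝ) = ⊤ := by
      rw [analyticOrderAt_eq_top]
      exact Eventually.of_forall fun z => rfl
    rw [h2] at h1
    exact ENat.top_ne_natCast _ h1
  refine ⟨θ, hθ, fun x => ?_⟩
  have := nord_eq hθ x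
  rw [hord x] at this
  exact_mod_cast this

/-- Divisibility is decided by orders of vanishing. -/
theorem exists_div {p q : An ℝ} (hp : p ≠ 0) (hq : q ≠ 0) (h : ∀ x, nord q x ≤ nord p x) :
    ∃ u : An ℝ, p = q * u := by
  have hmp : MeromorphicOn (p : ℝ → ℝ) univ := fun x _ => (p.an x trivial).meromorphicAt
  have hmq : MeromorphicOn (q : ℝ → ℝ) univ := fun x _ => (q.an x trivial).meromorphicAt
  have hm : MeromorphicOn ((p : ℝ → ℝ) / (q : ℝ → ℝ)) univ := fun x hx => (hmp x hx).div (hmq x hx)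
  let u := toMeromorphicNFOn ((p : ℝ → ℝ) / (q : ℝ → ℝ)) univ
  have hu : ∀ x, AnalyticAt ℝ u x := by
    intro x
    have h1 : MeromorphicNFAt u x := meromorphicNFOn_toMeromorphicNFOn _ _ (mem_univ x)
    rw [← h1.meromorphicOrderAt_nonneg_iff_analyticAt,
      meromorphicOrderAt_toMeromorphicNFOn hm (mem_univ x),
      meromorphicOrderAt_div (hmp x trivial) (hmq x trivial),
      (p.an x trivial).meromorphicOrderAt_eq, (q.an x trivial).meromorphicOrderAt_eq,
      ← nord_eq hp, ← nord_eq hq]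
    have h2 := h x
    simp only [ENat.map_natCast]
    have h3 : (((nord p x : ℤ)) : WithTop ℤ) - ((nord q x : ℤ) : WithTop ℤ) =
        (((nord p x : ℤ) - (nord q x : ℤ) : ℤ) : WithTop ℤ) := rfl
    have h4 : (0 : ℤ) ≤ (nord p x : ℤ) - (nord q x : ℤ) := by omega
    have h5 : ((0 : ℤ) : WithTop ℤ) ≤ (((nord p x : ℤ) - (nord q x : ℤ) : ℤ) : WithTop ℤ) := by
      exact_mod_cast h4
    rw [← h3] at h5
    exact h5
  refine ⟨⟨u, fun x _ => hu x⟩, An.ext fun x => ?_⟩
  have h1 : ∀ᶠ z in 𝓝[≠] x, (p : ℝ → ℝ) z = (q : ℝ → ℝ) z * u z := by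
    have h2 := hm.toMeromorphicNFOn_eq_self_on_nhdsNE (mem_univ x)
    have h3 : ∀ᶠ z in 𝓝[≠] x, (q : ℝ → ℝ) z ≠ 0 := by
      rcases (q.an x trivial).eventually_eq_zero_or_eventually_ne_zero with h4 | h4
      · exact absurd (An.eq_of_eventuallyEq (f := q) (g := 0) h4) hq
      · exact h4
    filter_upwards [h2, h3] with z hz hz2
    rw [show u z = _ from hz]
    simp only [Pi.div_apply]
    field_simp
  have h5 : AnalyticAt ℝ (fun z => (q : ℝ → ℝ) z * u z) x := (q.an x trivial).mul (hu x)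
  have h6 := ((p.an x trivial).frequently_eq_iff_eventually_eq h5).mp h1.frequently
  exact h6.self_of_nhds

theorem const_sign {u : An ℝ} (hu : ∀ x, (u : ℝ → ℝ) x ≠ 0) :
    (∀ x, 0 < (u : ℝ → ℝ) x) ∨ (∀ x, (u : ℝ → ℝ) x < 0) := by
  rcases lt_or_gt_of_ne (hu 0) with h | h
  · right
    intro x
    by_contra hcon
    push Not at hcon
    obtain ⟨c, hc⟩ := mem_range_of_exists_le_of_exists_ge u.cont ⟨0, h.le⟩ ⟨x, hcon⟩
    exact hu c hc
  · left
    intro x
    by_contra hcon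
    push Not at hcon
    obtain ⟨c, hc⟩ := mem_range_of_exists_le_of_exists_ge u.cont ⟨x, hcon⟩ ⟨0, h.le⟩
    exact hu c hc

theorem even_factor {p : An ℝ} (hp : p ≠ 0) (h : ∀ x, Even (nord p x)) :
    ∃ θ u : An ℝ, θ ≠ 0 ∧ p = θ ^ 2 * u ∧ ((∀ x, 0 < (u : ℝ → ℝ) x) ∨ (∀ x, (u : ℝ → ℝ) x < 0)) := by
  obtain ⟨θ, hθ, hθo⟩ := exists_theta (fun x => nord p x / 2) (fun R => by
    refine (finite_zeros hp R).subset ?_
    rintro x ⟨hx, hR⟩
    refine ⟨?_, hR⟩
    by_contra hcon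
    rw [← Ne, ← nord_eq_zero hp] at hcon
    rw [hcon] at hx
    simp at hx)
  have h2 : ∀ x, nord (θ ^ 2) x = nord p x := by
    intro x
    rw [sq, nord_mul hθ hθ, hθo]
    obtain ⟨k, hk⟩ := h x
    omega
  obtain ⟨u, hu⟩ := exists_div hp (pow_ne_zero 2 hθ) (fun x => (h2 x).le)
  have hu0 : u ≠ 0 := by
    rintro rfl
    rw [mul_zero] at hu
    exact hp hu
  refine ⟨θ, u, hθ, hu, const_sign fun x => ?_⟩
  rw [← nord_eq_zero hu0]
  have h3 := nord_mul (pow_ne_zero 2 hθ) hu0 x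
  rw [← hu, h2] at h3
  omega

/-- a nonzero nonnegative function has even orders -/
theorem even_of_nonneg {p : An ℝ} (hp : p ≠ 0) (h : ∀ x, 0 ≤ (p : ℝ → ℝ) x) (x : ℝ) :
    Even (nord p x) := by
  by_contra hodd
  rw [Nat.not_even_iff_odd] at hodd
  obtain ⟨g, hg, hg0, hpg⟩ := nord_local hp x
  -- `g` has constant sign near `x`
  have hcont := hg.continuousAt
  rcases lt_or_gt_of_ne hg0 with h1 | h1
  · have h2 : ∀ᶠ z in 𝓝 x, g z < 0 := hcont.eventually_lt_const h1
    have h3 : ∃ᶠ z in 𝓝 x, x < z := by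
      have : ∃ᶠ z in 𝓝[>] x, x < z := by
        refine Eventually.frequently ?_
        exact eventually_mem_nhdsWithin
      exact this.filter_mono nhdsWithin_le_nhds
    obtain ⟨z, hz, hz1, hz2⟩ := (h3.and_eventually (h2.and hpg)).exists
    have h4 : 0 < (z - x) ^ nord p x := pow_pos (by linarith) _
    have := h z
    rw [hz2] at this
    nlinarith
  · have h2 : ∀ᶠ z in 𝓝 x, 0 < g z := hcont.eventually_const_lt h1
    have h3 : ∃ᶠ z in 𝓝 x, z < x := by
      have : ∃ᶠ z in 𝓝[<] x, z < x := by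
        refine Eventually.frequently ?_
        exact eventually_mem_nhdsWithin
      exact this.filter_mono nhdsWithin_le_nhds
    obtain ⟨z, hz, hz1, hz2⟩ := (h3.and_eventually (h2.and hpg)).exists
    have h4 : (z - x) ^ nord p x < 0 := hodd.pow_neg (by linarith)
    have := h z
    rw [hz2] at this
    nlinarith

section Ordering

variable {M : RC.Model} (φ : An ℝ →+* M.F) (hφ : Function.Injective φ)

include hφ

theorem phi_ne {p : An ℝ} (hp : p ≠ 0) : φ p ≠ 0 := by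
  intro h
  exact hp (hφ (by rw [h, map_zero]))

theorem pos_of_nonneg {p : An ℝ} (hp : p ≠ 0) (h : ∀ x, 0 ≤ (p : ℝ → ℝ) x) : 0 < φ p := by
  obtain ⟨θ, u, hθ, rfl, hu⟩ := even_factor hp (even_of_nonneg hp h)
  have hθ' := phi_ne φ hφ hθ
  rcases hu with hu | hu
  · have := pos_of_pos (φ := φ) hu
    rw [map_mul, map_pow]
    positivity
  · exfalso
    obtain ⟨x, hx⟩ := An.exists_ne hθ
    have h1 := h x
    have h2 := hu x
    simp only [An.coe_mul, An.coe_pow] at h1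
    have : 0 < (θ : ℝ → ℝ) x ^ 2 := by positivity
    nlinarith

/-- if all orders of `p * q` are even, then `φ p` and `± φ q` have the same sign, uniformly -/
theorem exists_unit_sign {p q : An ℝ} (hp : p ≠ 0) (hq : q ≠ 0) (h : ∀ x, Even (nord (p * q) x)) :
    ∃ q' : An ℝ, (q' = q ∨ q' = -q) ∧ (∀ x, 0 ≤ (p : ℝ → ℝ) x * (q' : ℝ → ℝ) x) ∧
      0 < φ p * φ q' := by
  obtain ⟨θ, u, hθ, hpq, hu⟩ := even_factor (mul_ne_zero hp hq) h
  have hpq' : ∀ x, (p : ℝ → ℝ) x * (q : ℝ → ℝ) x = (θ : ℝ → ℝ) x ^ 2 * (u : ℝ → ℝ) x := by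
    intro x
    have := congrArg (fun f : An ℝ => (f : ℝ → ℝ) x) hpq
    simpa using this
  rcases hu with hu | hu
  · refine ⟨q, Or.inl rfl, fun x => ?_, ?_⟩
    · rw [hpq']
      exact mul_nonneg (sq_nonneg _) (hu x).le
    · rw [← map_mul]
      refine pos_of_nonneg φ hφ (mul_ne_zero hp hq) fun x => ?_
      rw [An.coe_mul, hpq']
      exact mul_nonneg (sq_nonneg _) (hu x).le
  · have h2 : ∀ x, 0 ≤ (p : ℝ → ℝ) x * ((-q : An ℝ) : ℝ → ℝ) x := by
      intro x
      rw [An.coe_neg, mul_neg, hpq']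
      have := mul_nonneg (sq_nonneg ((θ : ℝ → ℝ) x)) (neg_nonneg.mpr (hu x).le)
      linarith
    refine ⟨-q, Or.inr rfl, h2, ?_⟩
    rw [← map_mul]
    exact pos_of_nonneg φ hφ (mul_ne_zero hp (neg_ne_zero.mpr hq)) h2

/-- conjunction of two coprime conditions -/
theorem exists_and {a b : An ℝ} (hab : ∀ x, (a : ℝ → ℝ) x ≠ 0 ∨ (b : ℝ → ℝ) x ≠ 0)
    (ha : 0 < φ a) (hb : 0 < φ b) :
    ∃ c : An ℝ, 0 < φ c ∧ (∀ x, 0 < (c : ℝ → ℝ) x → 0 < (a : ℝ → ℝ) x ∧ 0 < (b : ℝ → ℝ) x) ∧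
      (∀ x, (c : ℝ → ℝ) x = 0 → (a : ℝ → ℝ) x = 0 ∨ (b : ℝ → ℝ) x = 0) := by
  have hpos : ∀ x, 0 < ((a ^ 2 + b ^ 2 : An ℝ) : ℝ → ℝ) x := by
    intro x
    simp only [An.coe_add, An.coe_pow]
    rcases hab x with h | h
    · positivity
    · positivity
  obtain ⟨t, ht, htx, ht2⟩ := An.exists_sqrt hpos
  have h1 : 0 < φ t := pos_of_pos ht
  refine ⟨a + b - t, ?_, ?_, ?_⟩
  · have h2 : φ t ^ 2 = φ a ^ 2 + φ b ^ 2 := by
      rw [← map_pow, ht2, map_add, map_pow, map_pow]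
    rw [map_sub, map_add]
    have h3 : φ t ^ 2 < (φ a + φ b) ^ 2 := by nlinarith [mul_pos ha hb]
    have h4 : φ t < φ a + φ b := lt_of_pow_lt_pow_left₀ 2 (by positivity) h3
    linarith
  · intro x hx
    have h2 : (t : ℝ → ℝ) x ^ 2 = (a : ℝ → ℝ) x ^ 2 + (b : ℝ → ℝ) x ^ 2 := by
      have := congrArg (fun f : An ℝ => (f : ℝ → ℝ) x) ht2
      simpa using this
    simp only [An.coe_sub, An.coe_add] at hx
    have h3 := ht x
    have h4 : 0 < (a : ℝ → ℝ) x * (b : ℝ → ℝ) x := by nlinarith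
    rcases mul_pos_iff.mp h4 with h5 | h5
    · exact h5
    · linarith [h5.1, h5.2]
  · intro x hx
    have h2 : (t : ℝ → ℝ) x ^ 2 = (a : ℝ → ℝ) x ^ 2 + (b : ℝ → ℝ) x ^ 2 := by
      have := congrArg (fun f : An ℝ => (f : ℝ → ℝ) x) ht2
      simpa using this
    simp only [An.coe_sub, An.coe_add] at hx
    have h3 : (t : ℝ → ℝ) x = (a : ℝ → ℝ) x + (b : ℝ → ℝ) x := by linarith
    rw [h3] at h2
    have h4 : (a : ℝ → ℝ) x * (b : ℝ → ℝ) x = 0 := by nlinarith
    exact mul_eq_zero.mp h4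

/-- conjunction of two conditions -/
theorem exists_and' {p q : An ℝ} (hp : 0 < φ p) (hq : 0 < φ q) :
    ∃ d : An ℝ, 0 < φ d ∧ ∀ x, 0 < (d : ℝ → ℝ) x → 0 < (p : ℝ → ℝ) x ∧ 0 < (q : ℝ → ℝ) x := by
  classical
  have hp0 : p ≠ 0 := by rintro rfl; simp at hp
  have hq0 : q ≠ 0 := by rintro rfl; simp at hq
  have hz : ∀ {p : An ℝ}, p ≠ 0 → ∀ {x}, nord p x ≠ 0 → (p : ℝ → ℝ) x = 0 := by
    intro p hp x hx
    by_contra hcon
    exact hx ((nord_eq_zero hp x).mpr hcon)
  obtain ⟨g, hg, hgo⟩ := exists_theta (fun x => if Odd (nord p x) ∧ Odd (nord q x) then 1 else 0)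
    (fun R => (finite_zeros hp0 R).subset (by
      rintro x ⟨hx, hR⟩
      refine ⟨hz hp0 ?_, hR⟩
      simp only [ne_eq, ite_eq_right_iff, one_ne_zero, imp_false, not_not] at hx
      exact fun h => by rw [h] at hx; simp at hx))
  obtain ⟨a, ha, hao⟩ := exists_theta (fun x => if Odd (nord p x) ∧ ¬ Odd (nord q x) then 1 else 0)
    (fun R => (finite_zeros hp0 R).subset (by
      rintro x ⟨hx, hR⟩
      refine ⟨hz hp0 ?_, hR⟩
      simp only [ne_eq, ite_eq_right_iff, one_ne_zero, imp_false, not_not] at hx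
      exact fun h => by rw [h] at hx; simp at hx))
  obtain ⟨b, hb, hbo⟩ := exists_theta (fun x => if ¬ Odd (nord p x) ∧ Odd (nord q x) then 1 else 0)
    (fun R => (finite_zeros hq0 R).subset (by
      rintro x ⟨hx, hR⟩
      refine ⟨hz hq0 ?_, hR⟩
      simp only [ne_eq, ite_eq_right_iff, one_ne_zero, imp_false, not_not] at hx
      exact fun h => by rw [h] at hx; simp at hx))
  -- normalise the sign of `g`
  obtain ⟨g', hg', hg'pos⟩ : ∃ g' : An ℝ, (g' = g ∨ g' = -g) ∧ 0 < φ g' := by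
    rcases lt_or_gt_of_ne (phi_ne φ hφ hg) with h | h
    · exact ⟨-g, Or.inr rfl, by rw [map_neg]; linarith⟩
    · exact ⟨g, Or.inl rfl, h⟩
  have hg'0 : g' ≠ 0 := by rintro rfl; simp at hg'pos
  have hg'o : ∀ x, nord g' x = nord g x := by
    intro x
    rcases hg' with rfl | rfl
    · rfl
    · exact nord_neg x
  have hpga : ∀ x, Even (nord (p * g' * a) x) := by
    intro x
    rw [nord_mul (mul_ne_zero hp0 hg'0) ha, nord_mul hp0 hg'0, hg'o, hgo, hao]
    by_cases h1 : Odd (nord p x) <;> by_cases h2 : Odd (nord q x) <;>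
      simp [h1, h2, Nat.not_even_iff_odd.mpr, Nat.not_odd_iff_even.mp, parity_simps]
  have hqgb : ∀ x, Even (nord (q * g' * b) x) := by
    intro x
    rw [nord_mul (mul_ne_zero hq0 hg'0) hb, nord_mul hq0 hg'0, hg'o, hgo, hbo]
    by_cases h1 : Odd (nord p x) <;> by_cases h2 : Odd (nord q x) <;>
      simp [h1, h2, Nat.not_even_iff_odd.mpr, Nat.not_odd_iff_even.mp, parity_simps]
  obtain ⟨a', ha', ha'x, ha'pos⟩ := exists_unit_sign φ hφ (mul_ne_zero hp0 hg'0) ha hpga
  obtain ⟨b', hb', hb'x, hb'pos⟩ := exists_unit_sign φ hφ (mul_ne_zero hq0 hg'0) hb hqgb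
  have ha'p : 0 < φ a' := by
    rw [map_mul] at ha'pos
    exact (mul_pos_iff_of_pos_left (mul_pos hp hg'pos)).mp ha'pos
  have hb'p : 0 < φ b' := by
    rw [map_mul] at hb'pos
    exact (mul_pos_iff_of_pos_left (mul_pos hq hg'pos)).mp hb'pos
  have hne : ∀ {f f' : An ℝ}, f ≠ 0 → (f' = f ∨ f' = -f) → ∀ x, (f' : ℝ → ℝ) x = 0 → nord f x ≠ 0 := by
    rintro f f' hf (rfl | rfl) x hx h0
    · exact (nord_eq_zero hf x).mp h0 hx
    · exact (nord_eq_zero hf x).mp h0 (by simpa using hx)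
  obtain ⟨c, hc, hcx, hc0⟩ := exists_and φ hφ (a := a') (b := b') (by
    intro x
    by_contra hcon
    push Not at hcon
    have h1 := hne ha ha' x hcon.1
    have h2 := hne hb hb' x hcon.2
    rw [hao] at h1
    rw [hbo] at h2
    simp only [ne_eq, ite_eq_right_iff, one_ne_zero, imp_false, not_not] at h1 h2
    exact h2.1 h1.1) ha'p hb'p
  obtain ⟨d, hd, hdx, _⟩ := exists_and φ hφ (a := c) (b := g') (by
    intro x
    by_contra hcon
    push Not at hcon
    have h1 := hne hg hg' x hcon.2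
    rw [hgo] at h1
    simp only [ne_eq, ite_eq_right_iff, one_ne_zero, imp_false, not_not] at h1
    rcases hc0 x hcon.1 with h2 | h2
    · have h3 := hne ha ha' x h2
      rw [hao] at h3
      simp only [ne_eq, ite_eq_right_iff, one_ne_zero, imp_false, not_not] at h3
      exact h3.2 h1.2
    · have h3 := hne hb hb' x h2
      rw [hbo] at h3
      simp only [ne_eq, ite_eq_right_iff, one_ne_zero, imp_false, not_not] at h3
      exact h3.1 h1.1) hc hg'pos
  -- `d > 0` implies `a', b', g' > 0`, hence `p, q ≥ 0`; strictness via the zeros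
  have key : ∀ x, 0 < (d : ℝ → ℝ) x → 0 ≤ (p : ℝ → ℝ) x ∧ 0 ≤ (q : ℝ → ℝ) x := by
    intro x hx
    obtain ⟨h1, h2⟩ := hdx x hx
    obtain ⟨h3, h4⟩ := hcx x h1
    have h5 := ha'x x
    have h6 := hb'x x
    rw [An.coe_mul] at h5 h6
    constructor
    · by_contra hcon
      push Not at hcon
      have : (p : ℝ → ℝ) x * (g' : ℝ → ℝ) x * (a' : ℝ → ℝ) x < 0 :=
        mul_neg_of_neg_of_pos (mul_neg_of_neg_of_pos hcon h2) h3
      linarith
    · by_contra hcon
      push Not at hcon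
      have : (q : ℝ → ℝ) x * (g' : ℝ → ℝ) x * (b' : ℝ → ℝ) x < 0 :=
        mul_neg_of_neg_of_pos (mul_neg_of_neg_of_pos hcon h2) h4
      linarith
  refine ⟨d * (p * q) ^ 2, ?_, ?_⟩
  · have h1 := phi_ne φ hφ hp0
    have h2 := phi_ne φ hφ hq0
    rw [map_mul, map_pow, map_mul]
    positivity
  · intro x hx
    simp only [An.coe_mul, An.coe_pow] at hx
    have h1 : 0 < (d : ℝ → ℝ) x := by
      by_contra hcon
      push Not at hcon
      have := mul_nonpos_of_nonpos_of_nonneg hcon (sq_nonneg ((p : ℝ → ℝ) x * (q : ℝ → ℝ) x))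
      linarith
    obtain ⟨h2, h3⟩ := key x h1
    have h4 : (p : ℝ → ℝ) x * (q : ℝ → ℝ) x ≠ 0 := by
      intro h
      rw [h] at hx
      simp at hx
    exact ⟨lt_of_le_of_ne h2 (fun h => h4 (by rw [← h, zero_mul])),
      lt_of_le_of_ne h3 (fun h => h4 (by rw [← h, mul_zero]))⟩

theorem exists_and_finset {ι : Type} (T : Finset ι) (q : ι → An ℝ) (hq : ∀ i ∈ T, 0 < φ (q i)) :
    ∃ d : An ℝ, 0 < φ d ∧ ∀ x, 0 < (d : ℝ → ℝ) x → ∀ i ∈ T, 0 < (q i : ℝ → ℝ) x := by
  classical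
  induction T using Finset.induction_on with
  | empty => exact ⟨1, by simp, fun x _ i hi => absurd hi (Finset.notMem_empty i)⟩
  | insert j T hj ih =>
    obtain ⟨d, hd, hdx⟩ := ih fun i hi => hq i (Finset.mem_insert_of_mem hi)
    obtain ⟨d', hd', hd'x⟩ := exists_and' φ hφ hd (hq j (Finset.mem_insert_self _ _))
    refine ⟨d', hd', fun x hx i hi => ?_⟩
    obtain ⟨h1, h2⟩ := hd'x x hx
    rcases Finset.mem_insert.mp hi with rfl | hi
    · exact h2
    · exact hdx x h1 i hi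

/-- The Artin-Lang property of the line. -/
theorem artin_lang_line {ι : Type} (T : Finset ι) (q : ι → An ℝ) :
    ∃ x : ℝ, ∀ i ∈ T, SignType.sign ((q i : ℝ → ℝ) x) = SignType.sign (φ (q i)) := by
  classical
  let q' : ι → An ℝ := fun i => if 0 < φ (q i) then q i else if φ (q i) < 0 then - q i else 1
  obtain ⟨d, hd, hdx⟩ := exists_and_finset φ hφ T q' (fun i _ => by
    simp only [q']
    split_ifs with h1 h2
    · exact h1
    · rw [map_neg]; linarith
    · simp)
  obtain ⟨x, hx⟩ : ∃ x, 0 < (d : ℝ → ℝ) x := by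
    by_contra hcon
    push Not at hcon
    have hd0 : d ≠ 0 := by rintro rfl; simp at hd
    have := pos_of_nonneg φ hφ (neg_ne_zero.mpr hd0) (fun x => by
      rw [An.coe_neg]; linarith [hcon x])
    rw [map_neg] at this
    linarith
  refine ⟨x, fun i hi => ?_⟩
  have h1 := hdx x hx i hi
  simp only [q'] at h1
  rcases lt_trichotomy (φ (q i)) 0 with h2 | h2 | h2
  · rw [if_neg (not_lt.mpr h2.le), if_pos h2, An.coe_neg] at h1
    rw [sign_neg h2, sign_neg (by linarith)]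
  · have h3 : q i = 0 := hφ (by rw [h2, map_zero])
    rw [h2, h3]
    simp
  · rw [if_pos h2] at h1
    rw [sign_pos h2, sign_pos h1]

end Ordering

end Run7.h470
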