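import Pool.Agent.Run7.h470.Transfer

/-!
Analytic functions that are polynomial in all but one variable.
-/

set_option autoImplicit false

namespace Run7.h470

open Set Filter Topology
open Pool.Agent.Helper716_Lang

variable {m : ℕ}

/-- the one variable Lagrange polynomials with nodes `0, ..., D` -/
noncomputable def lag (D : ℕ) (b : Fin (D + 1)) : Polynomial ℝ :=
  Lagrange.basis Finset.univ (fun b : Fin (D + 1) => (b : ℝ)) b

theorem lag_pow (D k : ℕ) (hk : k ≤ D) (t : ℝ) :
    t ^ k = ∑ b : Fin (D + 1), (b : ℝ) ^ k * (lag D b).eval t := by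
  have hinj : Set.InjOn (fun b : Fin (D + 1) => (b : ℝ)) (Finset.univ : Finset (Fin (D + 1))) := by
    intro a _ b _ hab
    have h : ((a : ℕ) : ℝ) = ((b : ℕ) : ℝ) := hab
    exact Fin.ext (by exact_mod_cast h)
  have h := Lagrange.eq_interpolate (f := (Polynomial.X ^ k : Polynomial ℝ)) hinj (by
    rw [Polynomial.degree_X_pow, Finset.card_univ, Fintype.card_fin]
    exact_mod_cast Nat.lt_succ_of_le hk)
  have h2 := congrArg (Polynomial.eval t) h
  rw [Lagrange.interpolate_apply, Polynomial.eval_finsetSum] at h2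
  simpa [lag] using h2

theorem interp (D : ℕ) (P : MvPolynomial (Fin m) ℝ) (hP : ∀ i, P.degreeOf i ≤ D) (x : Fin m → ℝ) :
    P.eval x = ∑ β : Fin m → Fin (D + 1), P.eval (fun i => ((β i : ℕ) : ℝ)) *
      ∏ i, (lag D (β i)).eval (x i) := by
  have h1 : ∀ y : Fin m → ℝ, P.eval y = ∑ α ∈ P.support, P.coeff α * ∏ i, y i ^ α i :=
    fun y => MvPolynomial.eval_eq' y P
  rw [h1]
  simp_rw [h1, Finset.sum_mul]
  rw [Finset.sum_comm]
  refine Finset.sum_congr rfl fun α hα => ?_
  have h2 : ∀ i, x i ^ α i = ∑ b : Fin (D + 1), (b : ℝ) ^ α i * (lag D b).eval (x i) := by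
    intro i
    exact lag_pow D _ ((MvPolynomial.degreeOf_le_iff.mp (hP i)) α hα) _
  simp_rw [mul_assoc]
  rw [← Finset.mul_sum]
  congr 1
  rw [Finset.prod_congr rfl (fun i _ => h2 i), Finset.prod_univ_sum]
  simp only [Fintype.piFinset_univ]
  refine Finset.sum_congr rfl fun β _ => ?_
  rw [Finset.prod_mul_distrib]

/-- the multivariate Lagrange polynomials -/
noncomputable def lagM (D : ℕ) (β : Fin m → Fin (D + 1)) : MvPolynomial (Fin m) ℝ :=
  ∏ i, Polynomial.aeval (MvPolynomial.X i : MvPolynomial (Fin m) ℝ) (lag D (β i))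

theorem eval_lagM (D : ℕ) (β : Fin m → Fin (D + 1)) (x : Fin m → ℝ) :
    (lagM D β).eval x = ∏ i, (lag D (β i)).eval (x i) := by
  unfold lagM
  rw [map_prod]
  refine Finset.prod_congr rfl fun i _ => ?_
  rw [← MvPolynomial.coe_aeval_eq_eval, RingHom.coe_coe, ← Polynomial.aeval_algHom_apply,
    MvPolynomial.aeval_X, Polynomial.coe_aeval_eq_eval]

/-- A function that is analytic, and polynomial in all but one variable, is a polynomial with
analytic coefficients. -/
theorem exists_coeffs (F : (Fin m → ℝ) × ℝ → ℝ) (hF : AnalyticOnNhd ℝ F univ)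
    (hpoly : ∀ z : ℝ, ∃ P : MvPolynomial (Fin m) ℝ, ∀ x, F (x, z) = P.eval x) :
    ∃ (A : Finset (Fin m →₀ ℕ)) (c : A → An ℝ), ∀ x z,
      F (x, z) = RC.val A (fun α => (c α : ℝ → ℝ) z) x := by
  classical
  -- interpolation operator
  let L : ℕ → (Fin m → ℝ) → ℝ → ℝ := fun D x z => ∑ β : Fin m → Fin (D + 1),
    F (fun i => ((β i : ℕ) : ℝ), z) * (lagM D β).eval x
  have hFan : ∀ x : Fin m → ℝ, AnalyticOnNhd ℝ (fun z => F (x, z)) univ := by
    intro x z _
    exact (hF (x, z) trivial).comp₂ analyticAt_const analyticAt_id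
  have hcont : ∀ x : Fin m → ℝ, Continuous fun z => F (x, z) := fun x => by
    have := (hFan x).continuousOn
    rwa [continuousOn_univ] at this
  have hLcont : ∀ D x, Continuous fun z => L D x z := by
    intro D x
    refine continuous_finsetSum _ fun β _ => ?_
    exact (hcont _).mul continuous_const
  have hclosed : ∀ D, IsClosed {z : ℝ | ∀ x, F (x, z) = L D x z} := by
    intro D
    rw [show {z : ℝ | ∀ x, F (x, z) = L D x z} = ⋂ x, {z : ℝ | F (x, z) = L D x z} by
      ext z; simp]
    exact isClosed_iInter fun x => isClosed_eq (hcont x) (hLcont D x)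
  have hcover : ⋃ D, {z : ℝ | ∀ x, F (x, z) = L D x z} = univ := by
    refine eq_univ_of_forall fun z => ?_
    obtain ⟨P, hP⟩ := hpoly z
    refine mem_iUnion.mpr ⟨Finset.univ.sup (fun i => P.degreeOf i), fun x => ?_⟩
    rw [hP, interp (Finset.univ.sup (fun i => P.degreeOf i)) P
      (fun i => Finset.le_sup (f := fun i => P.degreeOf i) (Finset.mem_univ i))]
    refine Finset.sum_congr rfl fun β _ => ?_
    rw [hP, eval_lagM]
  obtain ⟨D, z₀, hz₀⟩ := nonempty_interior_of_iUnion_of_closed hclosed hcover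
  -- identity theorem
  have hall : ∀ x z, F (x, z) = L D x z := by
    intro x z
    have hL : AnalyticOnNhd ℝ (fun z => L D x z) univ := by
      intro z _
      refine Finset.analyticAt_fun_sum _ fun β _ => ?_
      exact (hFan _ z trivial).mul analyticAt_const
    have h1 : (fun z => F (x, z)) =ᶠ[𝓝 z₀] fun z => L D x z := by
      filter_upwards [mem_interior_iff_mem_nhds.mp hz₀] with z hz
      exact hz x
    exact congrFun ((hFan x).eq_of_eventuallyEq hL h1) z
  -- coefficients
  let A : Finset (Fin m →₀ ℕ) := Finset.univ.biUnion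
    (fun β : Fin m → Fin (D + 1) => (lagM D β).support)
  refine ⟨A, fun α => ⟨fun z => ∑ β : Fin m → Fin (D + 1), F (fun i => ((β i : ℕ) : ℝ), z) *
    (lagM D β).coeff α.1, ?_⟩, fun x z => ?_⟩
  · intro z _
    refine Finset.analyticAt_fun_sum _ fun β _ => ?_
    exact (hFan _ z trivial).mul analyticAt_const
  · rw [hall x z, RC.val]
    simp only [Finset.sum_mul]
    rw [Finset.sum_comm]
    refine Finset.sum_congr rfl fun β _ => ?_
    rw [MvPolynomial.eval_eq', Finset.mul_sum,
      Finset.sum_coe_sort A (fun α => F (fun i => ((β i : ℕ) : ℝ), z) *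
        (lagM D β).coeff α * ∏ i, x i ^ α i)]
    have h2 : ∑ α ∈ A, F (fun i => ((β i : ℕ) : ℝ), z) * (lagM D β).coeff α * ∏ i, x i ^ α i =
        ∑ α ∈ (lagM D β).support, F (fun i => ((β i : ℕ) : ℝ), z) * (lagM D β).coeff α *
          ∏ i, x i ^ α i := by
      refine (Finset.sum_subset (Finset.subset_biUnion_of_mem
        (fun β : Fin m → Fin (D + 1) => (lagM D β).support) (Finset.mem_univ β)) ?_).symm
      intro α _ hα
      rw [MvPolynomial.notMem_support_iff.mp hα]
      simp
    rw [h2]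
    exact Finset.sum_congr rfl fun α _ => by ring

end Run7.h470
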