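import Pool.Agent.Run7.h470.Base

/-!
Real analytic functions on the line with prescribed zeros; divisibility.
-/

set_option autoImplicit false

namespace Run7.h470

open Set Filter Topology

/-- sign of a real number (`1` at `0`) -/
noncomputable def sg (t : ℝ) : ℝ := if 0 ≤ t then 1 else -1

lemma sg_mul_self (t : ℝ) : sg t * t = |t| := by
  unfold sg
  split_ifs with h
  · rw [abs_of_nonneg h, one_mul]
  · rw [abs_of_neg (not_le.mp h)]; ring

lemma abs_sg (t : ℝ) : |sg t| = 1 := by
  unfold sg
  split_ifs <;> simp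

lemma sg_ne (t : ℝ) : sg t ≠ 0 := by
  intro h
  have := abs_sg t
  rw [h] at this
  simp at this

section Family

variable {J : Type} (a : J → ℝ) (e : J → ℕ)

/-- the exponent -/
noncomputable def ex (j : J) (z : ℂ) : ℂ := ((e j : ℝ) + 1 : ℝ) * ((sg (a j) : ℝ) * (z - (a j : ℝ)))

noncomputable def Fr (j : J) (x : ℝ) : ℝ := 1 + -Real.exp (((e j : ℝ) + 1) * (sg (a j) * (x - a j)))
noncomputable def Fc (j : J) (z : ℂ) : ℂ := 1 + -Complex.exp (ex a e j z)

noncomputable def Pr (x : ℝ) : ℝ := ∏' j, Fr a e j x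
noncomputable def Pc (z : ℂ) : ℂ := ∏' j, Fc a e j z

lemma Fc_ofReal (j : J) (x : ℝ) : Fc a e j x = (Fr a e j x : ℝ) := by
  unfold Fc Fr ex
  push_cast
  rfl

lemma re_ex_le {R : ℝ} {z : ℂ} (hz : ‖z‖ ≤ R) {j : J} (hj : R + 1 ≤ |a j|) :
    (ex a e j z).re ≤ -((e j : ℝ) + 1) := by
  unfold ex
  rw [Complex.re_ofReal_mul, Complex.re_ofReal_mul]
  have h0 : (0 : ℝ) < (e j : ℝ) + 1 := by positivity
  have h1 : sg (a j) * (z - (a j : ℝ)).re ≤ -1 := by
    rw [Complex.sub_re, Complex.ofReal_re, mul_sub, sg_mul_self]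
    have h2 : sg (a j) * z.re ≤ R := by
      calc sg (a j) * z.re ≤ |sg (a j) * z.re| := le_abs_self _
        _ = |z.re| := by rw [abs_mul, abs_sg, one_mul]
        _ ≤ ‖z‖ := Complex.abs_re_le_norm z
        _ ≤ R := hz
    linarith
  nlinarith

lemma norm_exp_le {R : ℝ} {z : ℂ} (hz : ‖z‖ ≤ R) {j : J} (hj : R + 1 ≤ |a j|) :
    ‖-Complex.exp (ex a e j z)‖ ≤ (Real.exp (-1)) ^ (e j + 1) := by
  rw [norm_neg, Complex.norm_exp, ← Real.exp_nat_mul]
  apply Real.exp_le_exp.mpr
  have := re_ex_le a e hz hj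
  push_cast
  linarith

variable {a e}

lemma summable_bound (he : Function.Injective e) : Summable fun j => (Real.exp (-1)) ^ (e j + 1) := by
  have h : Summable fun n : ℕ => (Real.exp (-1)) ^ (n + 1) := by
    refine (summable_nat_add_iff 1).mpr (summable_geometric_of_lt_one (Real.exp_pos _).le ?_)
    rw [Real.exp_lt_one_iff]
    norm_num
  exact h.comp_injective he

lemma summable_exp (he : Function.Injective e) (ha : ∀ R : ℝ, {j | |a j| ≤ R}.Finite) (z : ℂ) :
    Summable fun j => ‖-Complex.exp (ex a e j z)‖ := by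
  refine (summable_bound he).of_norm_bounded_eventually ?_
  rw [Filter.eventually_cofinite]
  refine (ha (‖z‖ + 1)).subset ?_
  intro j hj
  simp only [mem_ofPred_eq] at hj ⊢
  by_contra hcon
  push Not at hcon
  apply hj
  rw [norm_norm]
  exact norm_exp_le a e le_rfl hcon.le

lemma multipliable_Fc (he : Function.Injective e) (ha : ∀ R : ℝ, {j | |a j| ≤ R}.Finite) (z : ℂ) :
    Multipliable fun j => Fc a e j z :=
  multipliable_one_add_of_summable (summable_exp he ha z)

lemma multipliable_Fr (he : Function.Injective e) (ha : ∀ R : ℝ, {j | |a j| ≤ R}.Finite) (x : ℝ) :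
    Multipliable fun j => Fr a e j x := by
  refine multipliable_one_add_of_summable ?_
  refine (summable_exp he ha (x : ℂ)).congr fun j => ?_
  rw [norm_neg, norm_neg, Complex.norm_exp, Real.norm_eq_abs, abs_of_pos (Real.exp_pos _)]
  congr 1
  unfold ex
  rw [Complex.re_ofReal_mul, Complex.re_ofReal_mul, Complex.sub_re, Complex.ofReal_re, Complex.ofReal_re]

lemma Pc_ofReal (he : Function.Injective e) (ha : ∀ R : ℝ, {j | |a j| ≤ R}.Finite) (x : ℝ) :
    Pc a e x = (Pr a e x : ℝ) := by
  unfold Pc Pr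
  have h := (multipliable_Fr he ha x).map_tprod (Complex.ofRealHom) Complex.continuous_ofReal
  simp only [Complex.ofRealHom_eq_coe] at h
  rw [h]
  exact tprod_congr fun j => Fc_ofReal a e j x

lemma differentiable_Pc (he : Function.Injective e) (ha : ∀ R : ℝ, {j | |a j| ≤ R}.Finite) :
    Differentiable ℂ (Pc a e) := by
  have hd : ∀ j, Differentiable ℂ fun z => -Complex.exp (ex a e j z) := by
    intro j
    unfold ex
    fun_prop
  have h : HasProdLocallyUniformlyOn (fun j z => Fc a e j z) (fun z => ∏' j, Fc a e j z)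
      (Set.univ : Set ℂ) := by
    apply hasProdLocallyUniformlyOn_of_forall_compact isOpen_univ
    intro K _ hK
    obtain ⟨R, hR⟩ := hK.isBounded.subset_closedBall 0
    refine HasProdUniformlyOn.mono ?_ hR
    refine Summable.hasProdUniformlyOn_one_add (R := ℂ) (f := fun j z => -Complex.exp (ex a e j z))
      (K := Metric.closedBall (0 : ℂ) R) (isCompact_closedBall _ _) (summable_bound he) ?_ ?_
    · rw [Filter.eventually_cofinite]
      refine (ha (R + 1)).subset ?_
      intro j hj
      simp only [mem_ofPred_eq] at hj ⊢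
      by_contra hcon
      push Not at hcon
      apply hj
      intro z hz
      exact norm_exp_le a e (by simpa using hz) hcon.le
    · intro j
      exact (hd j).continuous.continuousOn
  have h2 := h.differentiableOn (.of_forall fun s ↦ ?_) isOpen_univ
  · exact differentiableOn_univ.mp h2
  · refine DifferentiableOn.fun_finsetProd fun i _ => ?_
    exact ((hd i).const_add 1).differentiableOn

lemma analytic_Pr (he : Function.Injective e) (ha : ∀ R : ℝ, {j | |a j| ≤ R}.Finite) :
    AnalyticOnNhd ℝ (Pr a e) univ := by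
  intro x _
  have h1 : AnalyticAt ℂ (Pc a e) (x : ℂ) :=
    (differentiable_Pc he ha).analyticAt _
  have h2 := h1.re_ofReal
  refine h2.congr (Filter.Eventually.of_forall fun y => ?_)
  simp only [Pc_ofReal he ha, Complex.ofReal_re]

lemma Fr_ne_zero {j : J} {x : ℝ} (h : a j ≠ x) : Fr a e j x ≠ 0 := by
  unfold Fr
  intro h0
  have h1 : Real.exp (((e j : ℝ) + 1) * (sg (a j) * (x - a j))) = 1 := by linarith
  rw [Real.exp_eq_one_iff] at h1
  have h2 : ((e j : ℝ) + 1) ≠ 0 := by positivity
  rcases mul_eq_zero.mp h1 with h3 | h3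
  · exact h2 h3
  · rcases mul_eq_zero.mp h3 with h4 | h4
    · exact sg_ne _ h4
    · exact h (by linarith)

lemma Pr_ne_zero (he : Function.Injective e) (ha : ∀ R : ℝ, {j | |a j| ≤ R}.Finite) {x : ℝ}
    (h : ∀ j, a j ≠ x) : Pr a e x ≠ 0 := by
  unfold Pr
  refine tprod_one_add_ne_zero_of_summable (fun j => Fr_ne_zero (h j)) ?_
  refine (summable_exp he ha (x : ℂ)).congr fun j => ?_
  rw [norm_neg, norm_neg, Complex.norm_exp, Real.norm_eq_abs, abs_of_pos (Real.exp_pos _)]
  congr 1
  unfold ex
  rw [Complex.re_ofReal_mul, Complex.re_ofReal_mul, Complex.sub_re, Complex.ofReal_re, Complex.ofReal_re]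

lemma analytic_Fr (j : J) (x : ℝ) : AnalyticAt ℝ (Fr a e j) x := by
  unfold Fr
  fun_prop

lemma order_Fr_self (j : J) : analyticOrderAt (Fr a e j) (a j) = 1 := by
  refine (analytic_Fr j (a j)).analyticOrderAt_eq_one_of_zero_deriv_ne_zero ?_ ?_
  · unfold Fr; simp
  · have : HasDerivAt (Fr a e j) (-(Real.exp (((e j : ℝ) + 1) * (sg (a j) * (a j - a j))) *
        (((e j : ℝ) + 1) * (sg (a j) * 1)))) (a j) := by
      unfold Fr
      refine ((((hasDerivAt_id (a j)).sub_const (a j)).const_mul (sg (a j))).const_mul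
        ((e j : ℝ) + 1)).exp.neg.const_add 1
    rw [this.deriv]
    simp only [sub_self, mul_zero, Real.exp_zero, one_mul, mul_one, ne_eq, neg_eq_zero, mul_eq_zero,
      not_or]
    exact ⟨by positivity, sg_ne _⟩

/-- the order of `Pr` at `s` is the number of indices with `a j = s` -/
lemma order_Pr (he : Function.Injective e) (ha : ∀ R : ℝ, {j | |a j| ≤ R}.Finite) (s : ℝ) :
    analyticOrderAt (Pr a e) s = ({j | a j = s}.ncard : ℕ∞) := by
  classical
  set S : Set J := {j | a j = s} with hS
  have hfin : S.Finite := (ha |s|).subset fun j (hj : a j = s) => by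
    simp only [mem_ofPred_eq]; rw [hj]
  have : Fintype S := hfin.fintype
  -- restricted families
  have he' : Function.Injective (fun j : ↥Sᶜ => e j) := he.comp Subtype.val_injective
  have ha' : ∀ R : ℝ, {j : ↥Sᶜ | |a j| ≤ R}.Finite := fun R =>
    Finite.preimage (Subtype.val_injective.injOn) (ha R)
  have hsplit : ∀ x, Pr a e x = (∏ j : S, Fr a e j x) *
      Pr (fun j : ↥Sᶜ => a j) (fun j : ↥Sᶜ => e j) x := by
    intro x
    unfold Pr
    rw [← Multipliable.tprod_mul_tprod_compl (s := S) (f := fun j => Fr a e j x)]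
    · congr 1
      exact tprod_fintype _
    · exact (hasProd_fintype _).multipliable
    · exact multipliable_Fr he' ha' x
  have h1 : Pr a e = (fun x => ∏ j : S, Fr a e j x) *
      Pr (fun j : ↥Sᶜ => a j) (fun j : ↥Sᶜ => e j) := by
    funext x
    exact hsplit x
  have hprod : ∀ T : Finset S, analyticOrderAt (fun x => ∏ j ∈ T, Fr a e j x) s = (T.card : ℕ∞) ∧
      AnalyticAt ℝ (fun x => ∏ j ∈ T, Fr a e j x) s := by
    intro T
    induction T using Finset.induction_on with
    | empty =>
      simp only [Finset.prod_empty, Finset.card_empty, Nat.cast_zero]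
      refine ⟨?_, analyticAt_const⟩
      rw [analyticAt_const.analyticOrderAt_eq_zero]
      exact one_ne_zero
    | insert j T hj ih =>
      have h2 : (fun x => ∏ j ∈ insert j T, Fr a e j x) = (Fr a e j) * (fun x => ∏ j ∈ T, Fr a e j x) := by
        funext x
        simp [Finset.prod_insert hj]
      rw [h2]
      have hjs : a j = s := j.2
      refine ⟨?_, (analytic_Fr _ _).mul ih.2⟩
      rw [analyticOrderAt_mul (analytic_Fr _ _) ih.2, ih.1, Finset.card_insert_of_notMem hj]
      have h3 := order_Fr_self (a := a) (e := e) (j : J)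
      rw [hjs] at h3
      rw [h3]
      push_cast
      rw [add_comm]
  rw [h1, analyticOrderAt_mul (hprod Finset.univ).2 (analytic_Pr he' ha' s trivial),
    (hprod Finset.univ).1]
  have h4 : analyticOrderAt (Pr (fun j : ↥Sᶜ => a j) (fun j : ↥Sᶜ => e j)) s = 0 := by
    rw [(analytic_Pr he' ha' s trivial).analyticOrderAt_eq_zero]
    exact Pr_ne_zero he' ha' fun j => j.2
  rw [h4, add_zero, Finset.card_univ, ← Nat.card_eq_fintype_card]
  rfl

end Family

end Run7.h470
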